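import Pool.Agent.Work.MP_d8349b_al.Final

/-!
MP_d8349b_al: `u*` fails on the representation determined by a finite set.
-/

namespace Pool.Agent.MP_d8349b_al

open Matrix

section

variable {K : Type*} [Field K] {r : ℕ}

/-- The central elements of `Qn`. -/
def cT (K : Type*) [Field K] (r : ℕ) : Multiplicative (Matrix (Fin r) (Fin r) (ZMod 2)) →*
    Aff (Qn (Fin r) × Kˣ) (MQ K (Fin r)) where
  toFun T := ⟨(⟨0, T.toAdd⟩, 1), 0⟩
  map_one' := rfl
  map_mul' S T := by
    refine Aff.ext (Prod.ext (Qn.ext ?_ ?_) ?_) ?_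
    · simp
    · simp
    · simp
    · simp

/-- The substitution. -/
noncomputable def subst (K : Type*) [Field K] (r : ℕ) (t : Kˣ) :
    FreeGroup ℕ →* Aff (Qn (Fin r) × Kˣ) (MQ K (Fin r)) :=
  FreeGroup.lift fun i =>
    if i = 0 then ⟨(1, t), Finsupp.single 1 1⟩
    else if i = 1 then ⟨(1, t), 0⟩
    else if h : i - 2 < r then ⟨(⟨Pi.single ⟨i - 2, h⟩ 1, 0⟩, 1), 0⟩ else 1

theorem subst_zero (t : Kˣ) :
    subst K r t (FreeGroup.of 0) = ⟨(1, t), Finsupp.single 1 1⟩ := by
  unfold subst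
  rw [FreeGroup.lift_apply_of, if_pos rfl]

theorem subst_one (t : Kˣ) : subst K r t (FreeGroup.of 1) = ⟨(1, t), 0⟩ := by
  unfold subst
  rw [FreeGroup.lift_apply_of, if_neg one_ne_zero, if_pos rfl]

theorem subst_add (t : Kˣ) (i : Fin r) : subst K r t (FreeGroup.of (2 + (i : ℕ))) =
    ⟨(⟨Pi.single i 1, 0⟩, 1), 0⟩ := by
  unfold subst
  have h : 2 + (i : ℕ) - 2 < r := by omega
  rw [FreeGroup.lift_apply_of, if_neg (by omega), if_neg (by omega), dif_pos h]
  have : (⟨2 + (i : ℕ) - 2, h⟩ : Fin r) = i := by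
    apply Fin.ext
    simp
  rw [this]

theorem subst_ww (t : Kˣ) : subst K r t (ww r) = ⟨(⟨0, 1⟩, 1), 0⟩ := by
  unfold ww
  rw [map_list_prod, List.map_ofFn]
  have h1 : (⇑(subst K r t) ∘ fun i : Fin r => FreeGroup.of (2 + (i : ℕ)) ^ 2) =
      fun i => cT K r (Multiplicative.ofAdd (Matrix.single i i 1)) := by
    funext i
    rw [Function.comp_apply, map_pow, subst_add, pow_two]
    refine Aff.ext (Prod.ext (Qn.ext ?_ ?_) ?_) ?_
    · exact add_self_fun _
    · ext a b
      simp only [cT, Aff.mul_lin, Prod.fst_mul, Qn.mul_T, zero_add, MonoidHom.coe_mk, OneHom.coe_mk,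
        toAdd_ofAdd, vecMulVec_apply, Matrix.single_apply, Pi.single_apply]
      by_cases ha : a = i
      · by_cases hb : b = i
        · simp [ha, hb]
        · simp [ha, hb, Ne.symm hb]
      · simp [ha, Ne.symm ha]
    · simp [cT]
    · simp [cT]
  have h3 : (List.ofFn fun i : Fin r => cT K r (Multiplicative.ofAdd (Matrix.single i i 1))).prod =
      cT K r (Multiplicative.ofAdd (∑ i : Fin r, Matrix.single i i (1 : ZMod 2))) := by
    rw [ofAdd_sum, ← List.prod_ofFn, map_list_prod, List.map_ofFn]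
    rfl
  rw [h1, h3]
  have h2 : ∑ i : Fin r, Matrix.single i i (1 : ZMod 2) = 1 := by
    ext a b
    rw [Matrix.sum_apply]
    simp only [Matrix.single_apply, Matrix.one_apply]
    by_cases h : a = b
    · subst h
      simp
    · rw [if_neg h]
      refine Finset.sum_eq_zero fun x _ => if_neg ?_
      rintro ⟨rfl, rfl⟩
      exact h rfl
  rw [h2]
  rfl

theorem subst_nw (t : Kˣ) : subst K r t nw =
    ⟨1, Finsupp.single 1 ((1 + (t : K)) * (1 - (t : K) ^ 2))⟩ := by
  unfold nw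
  have h0 : subst K r t (FreeGroup.of 0 ^ 2) =
      ⟨(1, t ^ 2), Finsupp.single 1 (1 + (t : K))⟩ := by
    rw [map_pow, subst_zero, pow_two]
    refine Aff.ext (Prod.ext ?_ ?_) ?_
    · simp
    · simp [pow_two]
    · simp [MQ_smul_single, Finsupp.single_add]
  have h1 : subst K r t (FreeGroup.of 1 ^ 2) = ⟨(1, t ^ 2), 0⟩ := by
    rw [map_pow, subst_one, pow_two]
    refine Aff.ext (Prod.ext ?_ ?_) ?_
    · simp
    · simp [pow_two]
    · simp
  rw [map_mul, map_mul, map_mul, map_inv, map_inv, h0, h1]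
  refine Aff.ext (Prod.ext ?_ ?_) ?_
  · simp
  · simp only [Aff.mul_lin, Aff.inv_lin, Prod.snd_mul, Prod.snd_inv, Prod.snd_one]
    group
  · simp only [Aff.mul_tr, Aff.mul_lin, Aff.inv_tr, Aff.inv_lin, smul_zero, add_zero, neg_zero,
      Prod.inv_mk, inv_one, MQ_smul_single, Prod.mk_mul_mk, mul_one, ← Finsupp.single_neg,
      ← Finsupp.single_add]
    congr 1
    have ht : (t : K) ≠ 0 := t.ne_zero
    simp only [Units.val_mul, Units.val_pow_eq_pow_val, Units.val_inv_eq_inv_val]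
    field_simp
    ring

variable [CharP K 2]

theorem D_id (K : Type*) [Field K] (r : ℕ) : Qn.D K ((⟨0, 1⟩ : Qn (Fin r))⁻¹) = 1 := by
  rw [Qn.D_inv]
  unfold Qn.D cnt
  rw [if_pos rfl]
  simp only [Matrix.vecMul_one]
  rw [Finset.sum_ite_eq' Finset.univ (fun _ => (1 : ZMod 2))]
  simp

/-- `u*` fails at the quadratic form. -/
theorem ustar_fails (d : ℕ) (t : Kˣ) (ht : Function.Injective (fun n : ℤ => t ^ n)) :
    pair (ustar K (d + 1))
      (fun w => QQ K (Fin (d + 1)) ((subst K (d + 1) t w)⁻¹ • 0)) ≠ 0 := by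
  set c : K := (1 + (t : K)) * (1 - (t : K) ^ 2) with hc
  have hc0 : c ≠ 0 := by
    have h1 : (t : K) ≠ 1 := by
      intro h
      have h2 : t = 1 := Units.ext h
      have h3 := @ht 0 1 (by simp [h2])
      exact zero_ne_one h3
    have h2 : (1 + (t : K)) ≠ 0 := by
      intro h
      apply h1
      have two : (2 : K) = 0 := CharTwo.two_eq_zero
      linear_combination h - two
    have h3 : c = (1 + (t : K)) ^ 3 := by
      have two : (2 : K) = 0 := CharTwo.two_eq_zero
      rw [hc]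
      linear_combination -(t + 2 * t ^ 2 + t ^ 3 : K) * two
    rw [h3]
    exact pow_ne_zero 3 h2
  have e1 : subst K (d + 1) t nw = ⟨1, Finsupp.single 1 c⟩ := subst_nw t
  have e2 : subst K (d + 1) t (nw' (d + 1)) =
      ⟨1, Finsupp.single ((⟨0, 1⟩ : Qn (Fin (d + 1)))⁻¹) c⟩ := by
    unfold nw'
    rw [map_mul, map_mul, map_inv, e1, subst_ww]
    refine Aff.ext ?_ ?_
    · simp
    · simp [MQ_smul_single]
  have e3 : subst K (d + 1) t (nw * nw' (d + 1)) =
      ⟨1, Finsupp.single 1 c + Finsupp.single ((⟨0, 1⟩ : Qn (Fin (d + 1)))⁻¹) c⟩ := by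
    rw [map_mul, e1, e2]
    refine Aff.ext ?_ ?_
    · simp
    · simp
  have e4 : ∀ x : MQ K (Fin (d + 1)),
      ((⟨1, x⟩ : Aff (Qn (Fin (d + 1)) × Kˣ) (MQ K (Fin (d + 1))))⁻¹ • (0 : MQ K (Fin (d + 1))))
        = (-1 : K) • x := by
    intro x
    rw [Aff.smul_def]
    simp
  rw [pair_ustar, e3, e2, e1, e4, e4, e4, map_one, inv_one, one_smul, QQ_smul, QQ_smul, QQ_smul,
    QQ_add, QQ_zero, QQ_single, QQ_single]
  have e5 : beta K (Fin (d + 1)) (Finsupp.single 1 c)
      (Finsupp.single ((⟨0, 1⟩ : Qn (Fin (d + 1)))⁻¹) c) = c * c := by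
    unfold beta
    rw [kb_single, inv_one, one_mul, D_id, mul_one]
  rw [e5]
  simpa using hc0

end

/-- The final theorem over an arbitrary field of characteristic two with a unit of infinite
order. -/
theorem final (K : Type) [Field K] [CharP K 2] (t : Kˣ)
    (ht : Function.Injective (fun n : ℤ => t ^ n)) (S : Finset (MonoidAlgebra K (FreeGroup ℕ)))
    (hS : ∀ s ∈ S, ∀ φ : FreeGroup ℕ →* GG K,
      Representation.asAlgebraHom (MonoidHom.comp (subRep (VV K) (VV_inv K)) φ) s = 0) :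
    ∃ (H : Type) (_ : Group H) (W : Type) (_ : AddCommGroup W) (_ : Module K W)
      (τ : Representation K H W),
      (∀ s ∈ S, ∀ ψ : FreeGroup ℕ →* H,
        Representation.asAlgebraHom (MonoidHom.comp τ ψ) s = 0) ∧
      ∃ u : MonoidAlgebra K (FreeGroup ℕ),
        (∀ φ : FreeGroup ℕ →* GG K,
          Representation.asAlgebraHom (MonoidHom.comp (subRep (VV K) (VV_inv K)) φ) u = 0) ∧
        ∃ ψ : FreeGroup ℕ →* H, Representation.asAlgebraHom (MonoidHom.comp τ ψ) u ≠ 0 := by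
  classical
  obtain ⟨d, hd⟩ := jd_rd_finset (S.biUnion fun s => s.coeff.support)
  have horb : ∀ s ∈ S, ∀ (φ : FreeGroup ℕ →* GG K) (p : WW K) (k : ZMod 2),
      orb s φ p k = 0 := by
    intro s hs φ p k
    have h := (isIdentity_subRep_iff (VV K) (VV_inv K) φ s).1 (hS s hs φ) _ (mul_mem K k) p
    exact h
  have hQ : (fun x => QQ K (Fin (d + 1)) x) ∈
      VS (Aff (Qn (Fin (d + 1)) × Kˣ) (MQ K (Fin (d + 1)))) (MQ K (Fin (d + 1))) S := by
    intro s hs φ p
    refine main_nat t ht s (horb s hs) d ?_ φ p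
    intro w hw
    exact hd d le_rfl w (Finset.mem_biUnion.2 ⟨s, hs, hw⟩)
  refine ⟨Aff (Qn (Fin (d + 1)) × Kˣ) (MQ K (Fin (d + 1))), inferInstance,
    VS (Aff (Qn (Fin (d + 1)) × Kˣ) (MQ K (Fin (d + 1)))) (MQ K (Fin (d + 1))) S,
    inferInstance, inferInstance, subRep _ (VS_inv _ _ S), ?_, ustar K (d + 1), ?_,
    subst K (d + 1) t, ?_⟩
  · intro s hs ψ
    rw [isIdentity_subRep_iff]
    intro f hf p
    exact hf s hs ψ p
  · intro φ
    rw [isIdentity_subRep_iff]
    intro f hf p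
    exact ustar_holds (d + 1) φ f hf p
  · intro h
    rw [isIdentity_subRep_iff] at h
    exact ustar_fails d t ht (h _ hQ 0)

/-- A field of characteristic two with a unit of infinite order. -/
theorem exists_unit : ∃ t : (RatFunc (ZMod 2))ˣ, Function.Injective (fun n : ℤ => t ^ n) := by
  refine ⟨Units.mk0 RatFunc.X RatFunc.X_ne_zero, ?_⟩
  rw [injective_zpow_iff_not_isOfFinOrder, isOfFinOrder_iff_pow_eq_one]
  rintro ⟨n, hn, h⟩
  have h1 : (RatFunc.X : RatFunc (ZMod 2)) ^ n = 1 := by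
    have := congrArg (fun u : (RatFunc (ZMod 2))ˣ => (u : RatFunc (ZMod 2))) h
    simpa using this
  rw [← RatFunc.algebraMap_X, ← map_pow, ← map_one (algebraMap (Polynomial (ZMod 2)) _)] at h1
  have h2 := RatFunc.algebraMap_injective (ZMod 2) h1
  have h3 := congrArg Polynomial.natDegree h2
  rw [Polynomial.natDegree_X_pow, Polynomial.natDegree_one] at h3
  omega

end Pool.Agent.MP_d8349b_al
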