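import Mathlib

/-!
MP_d8349b_al: counting solutions of linear systems over `ZMod 2` modulo `2`.
-/

namespace Pool.Agent.MP_d8349b_al

open Matrix

variable {K : Type*} [Field K] [CharP K 2] {ι : Type*} [Fintype ι] [DecidableEq ι]

/-- The number of solutions `χ` of `χᵗ M = y`, as an element of `K`. -/
noncomputable def cnt (K : Type*) [Field K] (M : Matrix ι ι (ZMod 2)) (y : ι → ZMod 2) : K :=
  ∑ χ : ι → ZMod 2, if Matrix.vecMul χ M = y then 1 else 0

theorem add_self_fun {α : Type*} (z : α → ZMod 2) : z + z = 0 := by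
  funext a
  exact CharTwo.add_self_eq_zero (z a)

/-- If `M` is singular, the number of solutions is even. -/
theorem cnt_eq_zero {M : Matrix ι ι (ZMod 2)} {z : ι → ZMod 2} (hz : z ≠ 0)
    (hM : Matrix.vecMul z M = 0) (y : ι → ZMod 2) : cnt K M y = 0 := by
  unfold cnt
  refine Finset.sum_involution (fun χ _ => χ + z) ?_ ?_ ?_ ?_
  · intro χ _
    rw [Matrix.add_vecMul, hM, add_zero]
    split_ifs
    · exact CharTwo.add_self_eq_zero (1 : K)
    · simp
  · intro χ _ _ h
    exact hz (by simpa using h)
  · intro χ _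
    exact Finset.mem_univ _
  · intro χ _
    rw [add_assoc, add_self_fun, add_zero]

/-- The parity of the number of solutions does not depend on the right hand side. -/
theorem cnt_eq_cnt (M : Matrix ι ι (ZMod 2)) (y y' : ι → ZMod 2) : cnt K M y = cnt K M y' := by
  by_cases h : Function.Injective (fun χ : ι → ZMod 2 => Matrix.vecMul χ M)
  · have hs : Function.Surjective (fun χ : ι → ZMod 2 => Matrix.vecMul χ M) :=
      Finite.surjective_of_injective h
    have key : ∀ y : ι → ZMod 2, cnt K M y = 1 := by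
      intro y
      obtain ⟨χ, hχ⟩ := hs y
      unfold cnt
      rw [Finset.sum_eq_single χ]
      · exact if_pos hχ
      · intro b _ hb
        refine if_neg fun hb2 => hb (h ?_)
        exact hb2.trans hχ.symm
      · simp
    rw [key, key]
  · obtain ⟨a, b, hab, hne⟩ : ∃ a b, Matrix.vecMul a M = Matrix.vecMul b M ∧ a ≠ b := by
      unfold Function.Injective at h
      push Not at h
      obtain ⟨a, b, h1, h2⟩ := h
      exact ⟨a, b, h1, h2⟩
    have hz : a - b ≠ 0 := sub_ne_zero.2 hne
    have hM : Matrix.vecMul (a - b) M = 0 := by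
      rw [Matrix.sub_vecMul, hab, sub_self]
    rw [cnt_eq_zero hz hM, cnt_eq_zero hz hM]

/-- Products through a smaller index set are singular. -/
theorem exists_vecMul_eq_zero {I : Type*} [Fintype I] [DecidableEq I]
    (hc : Fintype.card I < Fintype.card ι)
    (ψ : Matrix ι I (ZMod 2)) : ∃ z : ι → ZMod 2, z ≠ 0 ∧ Matrix.vecMul z ψ = 0 := by
  have h1 : Fintype.card (I → ZMod 2) < Fintype.card (ι → ZMod 2) := by
    rw [Fintype.card_fun, Fintype.card_fun, ZMod.card]
    exact Nat.pow_lt_pow_right (by norm_num) hc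
  obtain ⟨a, b, hne, hab⟩ := Fintype.exists_ne_map_eq_of_card_lt
    (fun z : ι → ZMod 2 => Matrix.vecMul z ψ) h1
  exact ⟨a - b, sub_ne_zero.2 hne, by rw [Matrix.sub_vecMul, hab, sub_self]⟩

end Pool.Agent.MP_d8349b_al
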