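import Mathlib

/-!
MP_d8349b_al: affine groups, wreath groups with `ZMod 2`, and function representations.
-/

namespace Pool.Agent.MP_d8349b_al

/-! ### Affine groups -/

/-- Affine transformations `p ↦ tr + lin • p`. -/
@[ext]
structure Aff (A M : Type*) where
  lin : A
  tr : M

namespace Aff

set_option linter.unusedSectionVars false

variable {A M : Type*} [Group A] [AddCommGroup M] [DistribMulAction A M]

instance : Mul (Aff A M) := ⟨fun g h => ⟨g.lin * h.lin, g.tr + g.lin • h.tr⟩⟩
instance : One (Aff A M) := ⟨⟨1, 0⟩⟩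
instance : Inv (Aff A M) := ⟨fun g => ⟨g.lin⁻¹, -(g.lin⁻¹ • g.tr)⟩⟩

@[simp] theorem mul_lin (g h : Aff A M) : (g * h).lin = g.lin * h.lin := rfl
@[simp] theorem mul_tr (g h : Aff A M) : (g * h).tr = g.tr + g.lin • h.tr := rfl
@[simp] theorem one_lin : (1 : Aff A M).lin = 1 := rfl
@[simp] theorem one_tr : (1 : Aff A M).tr = 0 := rfl
@[simp] theorem inv_lin (g : Aff A M) : (g⁻¹).lin = g.lin⁻¹ := rfl
@[simp] theorem inv_tr (g : Aff A M) : (g⁻¹).tr = -(g.lin⁻¹ • g.tr) := rfl

instance : Group (Aff A M) where
  mul_assoc a b c := by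
    ext1
    · simp [mul_assoc]
    · simp [mul_smul, smul_add, add_assoc]
  one_mul a := by ext1 <;> simp
  mul_one a := by ext1 <;> simp
  inv_mul_cancel a := by ext1 <;> simp

instance : MulAction (Aff A M) M where
  smul g p := g.tr + g.lin • p
  one_smul p := by
    change (1 : Aff A M).tr + (1 : Aff A M).lin • p = p
    simp
  mul_smul g h p := by
    change (g * h).tr + (g * h).lin • p = g.tr + g.lin • (h.tr + h.lin • p)
    simp [mul_smul, smul_add, add_assoc]

theorem smul_def (g : Aff A M) (p : M) : g • p = g.tr + g.lin • p := rfl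

/-- The linear part. -/
def linHom (A M : Type*) [Group A] [AddCommGroup M] [DistribMulAction A M] : Aff A M →* A where
  toFun := lin
  map_one' := rfl
  map_mul' _ _ := rfl

@[simp] theorem linHom_apply (g : Aff A M) : linHom A M g = g.lin := rfl

/-- The translations. -/
def trHom (A M : Type*) [Group A] [AddCommGroup M] [DistribMulAction A M] :
    Multiplicative M →* Aff A M where
  toFun m := ⟨1, m.toAdd⟩
  map_one' := rfl
  map_mul' a b := by ext1 <;> simp

theorem isSolvable [Group.IsSolvable A] : Group.IsSolvable (Aff A M) := by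
  have h1 : Group.IsSolvable (Multiplicative M) := inferInstance
  refine Group.isSolvable_of_ker_le_range (trHom A M) (linHom A M) ?_
  intro g hg
  refine ⟨Multiplicative.ofAdd g.tr, ?_⟩
  have hg1 : g.lin = 1 := hg
  ext1
  · exact hg1.symm
  · rfl

variable {A' M' : Type*} [Group A'] [AddCommGroup M'] [DistribMulAction A' M']

/-- Functoriality of the affine group. -/
def map (f : A →* A') (h : M →+ M') (hc : ∀ (a : A) (m : M), h (a • m) = f a • h m) :
    Aff A M →* Aff A' M' where
  toFun g := ⟨f g.lin, h g.tr⟩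
  map_one' := by ext1 <;> simp
  map_mul' a b := by ext1 <;> simp [hc]

@[simp] theorem map_lin (f : A →* A') (h : M →+ M') (hc) (g : Aff A M) :
    (map f h hc g).lin = f g.lin := rfl
@[simp] theorem map_tr (f : A →* A') (h : M →+ M') (hc) (g : Aff A M) :
    (map f h hc g).tr = h g.tr := rfl

theorem map_smul (f : A →* A') (h : M →+ M') (hc : ∀ (a : A) (m : M), h (a • m) = f a • h m)
    (g : Aff A M) (p : M) : h (g • p) = map f h hc g • h p := by
  rw [smul_def, smul_def, map_add, hc, map_lin, map_tr]

end Aff

/-! ### Wreath groups -/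

/-- The wreath product `U ≀ ZMod 2`. -/
@[ext]
structure Wr (U : Type*) where
  sw : ZMod 2
  s : ZMod 2 → U

namespace Wr

variable {U : Type*} [CommGroup U]

instance : Mul (Wr U) := ⟨fun g h => ⟨g.sw + h.sw, fun k => g.s k * h.s (k + g.sw)⟩⟩
instance : One (Wr U) := ⟨⟨0, fun _ => 1⟩⟩
instance : Inv (Wr U) := ⟨fun g => ⟨-g.sw, fun k => (g.s (k - g.sw))⁻¹⟩⟩

@[simp] theorem mul_sw (g h : Wr U) : (g * h).sw = g.sw + h.sw := rfl
@[simp] theorem mul_s (g h : Wr U) (k : ZMod 2) : (g * h).s k = g.s k * h.s (k + g.sw) := rfl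
@[simp] theorem one_sw : (1 : Wr U).sw = 0 := rfl
@[simp] theorem one_s (k : ZMod 2) : (1 : Wr U).s k = 1 := rfl
@[simp] theorem inv_sw (g : Wr U) : (g⁻¹).sw = -g.sw := rfl
@[simp] theorem inv_s (g : Wr U) (k : ZMod 2) : (g⁻¹).s k = (g.s (k - g.sw))⁻¹ := rfl

instance : Group (Wr U) where
  mul_assoc a b c := by
    ext k
    · simp [add_assoc]
    · simp [mul_assoc, add_assoc]
  one_mul a := by ext k <;> simp
  mul_one a := by ext k <;> simp
  inv_mul_cancel a := by
    ext k
    · rw [mul_sw, inv_sw, one_sw, neg_add_cancel]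
    · rw [mul_s, inv_s, inv_sw, one_s, ← sub_eq_add_neg, inv_mul_cancel]

/-- The switch homomorphism. -/
def swHom (U : Type*) [CommGroup U] : Wr U →* Multiplicative (ZMod 2) where
  toFun g := Multiplicative.ofAdd g.sw
  map_one' := rfl
  map_mul' _ _ := rfl

/-- The base group. -/
def baseHom (U : Type*) [CommGroup U] : (ZMod 2 → U) →* Wr U where
  toFun s := ⟨0, s⟩
  map_one' := rfl
  map_mul' a b := by ext k <;> simp

theorem isSolvable : Group.IsSolvable (Wr U) := by
  have h1 : Group.IsSolvable (ZMod 2 → U) := inferInstance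
  have h2 : Group.IsSolvable (Multiplicative (ZMod 2)) := inferInstance
  refine Group.isSolvable_of_ker_le_range (baseHom U) (swHom U) ?_
  intro g hg
  refine ⟨g.s, ?_⟩
  have hg1 : g.sw = 0 := hg
  ext k
  · exact hg1.symm
  · rfl

variable {R : Type*} [CommRing R]

/-- The action of the wreath group of units on pairs. -/
instance : DistribMulAction (Wr Rˣ) (ZMod 2 → R) where
  smul g x := fun k => (g.s k : R) * x (k + g.sw)
  one_smul x := by
    funext k
    change ((1 : Wr Rˣ).s k : R) * x (k + (1 : Wr Rˣ).sw) = x k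
    simp
  mul_smul g h x := by
    funext k
    change ((g * h).s k : R) * x (k + (g * h).sw) =
      (g.s k : R) * ((h.s (k + g.sw) : R) * x (k + g.sw + h.sw))
    simp [mul_assoc, add_assoc]
  smul_zero g := by
    funext k
    change (g.s k : R) * 0 = 0
    simp
  smul_add g x y := by
    funext k
    change (g.s k : R) * (x (k + g.sw) + y (k + g.sw)) = _
    rw [mul_add]
    rfl

theorem smul_apply (g : Wr Rˣ) (x : ZMod 2 → R) (k : ZMod 2) :
    (g • x) k = (g.s k : R) * x (k + g.sw) := rfl

/-- Functoriality of the wreath group. -/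
def map {U U' : Type*} [CommGroup U] [CommGroup U'] (f : U →* U') : Wr U →* Wr U' where
  toFun g := ⟨g.sw, fun k => f (g.s k)⟩
  map_one' := by ext k <;> simp
  map_mul' a b := by ext k <;> simp

@[simp] theorem map_sw {U U' : Type*} [CommGroup U] [CommGroup U'] (f : U →* U') (g : Wr U) :
    (map f g).sw = g.sw := rfl
@[simp] theorem map_s {U U' : Type*} [CommGroup U] [CommGroup U'] (f : U →* U') (g : Wr U)
    (k : ZMod 2) : (map f g).s k = f (g.s k) := rfl

end Wr

/-- Pairs of pairs. -/
abbrev WW (R : Type*) : Type _ := (ZMod 2 → R) × (ZMod 2 → R)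

/-- The group `G(R)` of affine transformations of pairs of pairs. -/
abbrev GG (R : Type*) [CommRing R] : Type _ := Aff (Wr Rˣ) (WW R)

/-! ### Linear functionals of the group algebra -/

/-- The extension of a function on `Γ` to the group algebra. -/
noncomputable def pair {K Γ E : Type*} [Field K] [AddCommGroup E] [Module K E]
    (u : MonoidAlgebra K Γ) (F : Γ → E) : E := u.coeff.sum fun w c => c • F w

section pair

variable {K Γ E E' : Type*} [Field K] [AddCommGroup E] [Module K E] [AddCommGroup E']
  [Module K E']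

theorem pair_add (u : MonoidAlgebra K Γ) (F F' : Γ → E) :
    pair u (fun w => F w + F' w) = pair u F + pair u F' := by
  unfold pair
  rw [← Finsupp.sum_add]
  simp [smul_add]

theorem pair_zero (u : MonoidAlgebra K Γ) : pair u (fun _ => (0 : E)) = 0 := by
  unfold pair
  simp

theorem pair_map (u : MonoidAlgebra K Γ) (F : Γ → E) (L : E →ₗ[K] E') :
    L (pair u F) = pair u (fun w => L (F w)) := by
  unfold pair
  rw [map_finsuppSum]
  simp

theorem pair_smul (u : MonoidAlgebra K Γ) (F : Γ → E) (c : K) :
    pair u (fun w => c • F w) = c • pair u F := by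
  unfold pair
  rw [Finsupp.smul_sum]
  simp [smul_comm c]

theorem pair_sum {ι : Type*} (s : Finset ι) (u : MonoidAlgebra K Γ) (F : ι → Γ → E) :
    pair u (fun w => ∑ i ∈ s, F i w) = ∑ i ∈ s, pair u (F i) := by
  classical
  induction s using Finset.induction_on with
  | empty => simp [pair_zero]
  | insert a s ha ih =>
    rw [Finset.sum_insert ha, ← ih, ← pair_add]
    congr 1
    funext w
    rw [Finset.sum_insert ha]

end pair

/-! ### Function representations -/

section FunRep

variable {K G P : Type*} [Field K] [Group G] [MulAction G P]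

/-- The action of `G` on functions on `P`. -/
def funRep (K G P : Type*) [Field K] [Group G] [MulAction G P] : Representation K G (P → K) where
  toFun g :=
    { toFun := fun f p => f (g⁻¹ • p)
      map_add' := fun _ _ => rfl
      map_smul' := fun _ _ => rfl }
  map_one' := by
    ext f p
    simp
  map_mul' g h := by
    ext f p
    simp [mul_smul]

theorem funRep_apply (g : G) (f : P → K) (p : P) : funRep K G P g f p = f (g⁻¹ • p) := rfl

/-- The restriction of the function representation to an invariant subspace. -/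
def subRep (U : Submodule K (P → K)) (hU : ∀ (g : G), ∀ f ∈ U, funRep K G P g f ∈ U) :
    Representation K G U where
  toFun g := (funRep K G P g).restrict (hU g)
  map_one' := by
    ext f p
    simp
  map_mul' g h := by
    ext f p
    simp

theorem asAlgebraHom_subRep {Γ : Type*} [Group Γ] (U : Submodule K (P → K))
    (hU : ∀ (g : G), ∀ f ∈ U, funRep K G P g f ∈ U) (φ : Γ →* G) (u : MonoidAlgebra K Γ)
    (f : U) (p : P) :
    (Representation.asAlgebraHom (MonoidHom.comp (subRep U hU) φ) u f : P → K) p =
      pair u (fun w => (f : P → K) ((φ w)⁻¹ • p)) := by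
  rw [Representation.asAlgebraHom_def, MonoidAlgebra.lift_apply, Finsupp.sum,
    LinearMap.sum_apply, Submodule.coe_sum, Finset.sum_apply]
  rfl

theorem isIdentity_subRep_iff {Γ : Type*} [Group Γ] (U : Submodule K (P → K))
    (hU : ∀ (g : G), ∀ f ∈ U, funRep K G P g f ∈ U) (φ : Γ →* G) (u : MonoidAlgebra K Γ) :
    Representation.asAlgebraHom (MonoidHom.comp (subRep U hU) φ) u = 0 ↔
      ∀ f ∈ U, ∀ p : P, pair u (fun w => f ((φ w)⁻¹ • p)) = 0 := by
  constructor
  · intro h f hf p
    have := asAlgebraHom_subRep U hU φ u ⟨f, hf⟩ p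
    rw [h] at this
    exact this.symm
  · intro h
    ext f p
    rw [asAlgebraHom_subRep]
    exact h f f.2 p

end FunRep

end Pool.Agent.MP_d8349b_al
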