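import Pool.Agent.Work.MP_d8349b_al.Vars

/-!
MP_d8349b_al: the final assembly.
-/

namespace Pool.Agent.MP_d8349b_al

open Matrix

/-! ### The seven dimensional representation -/

section VV

variable (K : Type*) [Field K]

/-- The generating functions. -/
def genSet : Set (WW K → K) :=
  (({fun _ => 1} ∪ Set.range fun (k : ZMod 2) (P : WW K) => P.1 k) ∪
    Set.range fun (k : ZMod 2) (P : WW K) => P.2 k) ∪
      Set.range fun (k : ZMod 2) (P : WW K) => P.1 k * P.2 k

/-- The seven dimensional space of functions. -/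
def VV : Submodule K (WW K → K) := Submodule.span K (genSet K)

theorem VV_fd : FiniteDimensional K (VV K) := by
  refine FiniteDimensional.span_of_finite K ?_
  unfold genSet
  refine Set.Finite.union (Set.Finite.union (Set.Finite.union (Set.finite_singleton _) ?_) ?_) ?_
  · exact Set.finite_range _
  · exact Set.finite_range _
  · exact Set.finite_range _

theorem one_mem : (fun _ => 1 : WW K → K) ∈ VV K :=
  Submodule.subset_span (Or.inl (Or.inl (Or.inl rfl)))

theorem fst_mem (k : ZMod 2) : (fun P => P.1 k : WW K → K) ∈ VV K :=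
  Submodule.subset_span (Or.inl (Or.inl (Or.inr ⟨k, rfl⟩)))

theorem snd_mem (k : ZMod 2) : (fun P => P.2 k : WW K → K) ∈ VV K :=
  Submodule.subset_span (Or.inl (Or.inr ⟨k, rfl⟩))

theorem mul_mem (k : ZMod 2) : (fun P => P.1 k * P.2 k : WW K → K) ∈ VV K :=
  Submodule.subset_span (Or.inr ⟨k, rfl⟩)

theorem VV_inv (g : GG K) (f : WW K → K) (hf : f ∈ VV K) : funRep K (GG K) (WW K) g f ∈ VV K := by
  have h : VV K ≤ (VV K).comap (funRep K (GG K) (WW K) g) := by
    conv_lhs => unfold VV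
    rw [Submodule.span_le]
    rintro f (((hf | ⟨k, rfl⟩) | ⟨k, rfl⟩) | ⟨k, rfl⟩)
    · have hf' : f = fun _ => 1 := hf
      subst hf'
      exact one_mem K
    · have : funRep K (GG K) (WW K) g (fun P => P.1 k) =
          (g⁻¹.tr.1 k) • (fun _ => 1 : WW K → K) +
            ((g⁻¹.lin.s k : Kˣ) : K) • (fun P => P.1 (k + g⁻¹.lin.sw) : WW K → K) := by
        funext P
        rw [funRep_apply, Aff.smul_def]
        simp only [Prod.fst_add, Pi.add_apply, Pi.smul_apply, smul_eq_mul, mul_one]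
        rfl
      change funRep K (GG K) (WW K) g (fun P => P.1 k) ∈ VV K
      rw [this]
      exact add_mem (Submodule.smul_mem _ _ (one_mem K)) (Submodule.smul_mem _ _ (fst_mem K _))
    · have : funRep K (GG K) (WW K) g (fun P => P.2 k) =
          (g⁻¹.tr.2 k) • (fun _ => 1 : WW K → K) +
            ((g⁻¹.lin.s k : Kˣ) : K) • (fun P => P.2 (k + g⁻¹.lin.sw) : WW K → K) := by
        funext P
        rw [funRep_apply, Aff.smul_def]
        simp only [Prod.snd_add, Pi.add_apply, Pi.smul_apply, smul_eq_mul, mul_one]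
        rfl
      change funRep K (GG K) (WW K) g (fun P => P.2 k) ∈ VV K
      rw [this]
      exact add_mem (Submodule.smul_mem _ _ (one_mem K)) (Submodule.smul_mem _ _ (snd_mem K _))
    · have : funRep K (GG K) (WW K) g (fun P => P.1 k * P.2 k) =
          (g⁻¹.tr.1 k * g⁻¹.tr.2 k) • (fun _ => 1 : WW K → K) +
            (g⁻¹.tr.1 k * ((g⁻¹.lin.s k : Kˣ) : K)) •
              (fun P => P.2 (k + g⁻¹.lin.sw) : WW K → K) +
            (g⁻¹.tr.2 k * ((g⁻¹.lin.s k : Kˣ) : K)) •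
              (fun P => P.1 (k + g⁻¹.lin.sw) : WW K → K) +
            (((g⁻¹.lin.s k : Kˣ) : K) * ((g⁻¹.lin.s k : Kˣ) : K)) •
              (fun P => P.1 (k + g⁻¹.lin.sw) * P.2 (k + g⁻¹.lin.sw) : WW K → K) := by
        funext P
        rw [funRep_apply, Aff.smul_def]
        simp only [Prod.fst_add, Prod.snd_add, Pi.add_apply, Pi.smul_apply, smul_eq_mul, mul_one]
        have h1 : (g⁻¹.lin • P).1 k = ((g⁻¹.lin.s k : Kˣ) : K) * P.1 (k + g⁻¹.lin.sw) := rfl
        have h2 : (g⁻¹.lin • P).2 k = ((g⁻¹.lin.s k : Kˣ) : K) * P.2 (k + g⁻¹.lin.sw) := rfl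
        rw [h1, h2]
        ring
      change funRep K (GG K) (WW K) g (fun P => P.1 k * P.2 k) ∈ VV K
      rw [this]
      exact add_mem (add_mem (add_mem (Submodule.smul_mem _ _ (one_mem K))
        (Submodule.smul_mem _ _ (snd_mem K _))) (Submodule.smul_mem _ _ (fst_mem K _)))
        (Submodule.smul_mem _ _ (mul_mem K _))
  exact h hf

end VV

/-! ### The representation determined by a finite set -/

section VS

variable {K : Type*} [Field K] (H P : Type*) [Group H] [MulAction H P]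

/-- The largest space of functions on which all elements of `S` are identities. -/
def VS (S : Finset (MonoidAlgebra K (FreeGroup ℕ))) : Submodule K (P → K) where
  carrier := {f | ∀ s ∈ S, ∀ (φ : FreeGroup ℕ →* H) (p : P),
    pair s (fun w => f ((φ w)⁻¹ • p)) = 0}
  add_mem' := by
    intro f g hf hg s hs φ p
    have := pair_add s (fun w => f ((φ w)⁻¹ • p)) (fun w => g ((φ w)⁻¹ • p))
    rw [hf s hs φ p, hg s hs φ p, add_zero] at this
    exact this
  zero_mem' := by
    intro s _ φ p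
    exact pair_zero s
  smul_mem' := by
    intro c f hf s hs φ p
    have := pair_smul s (fun w => f ((φ w)⁻¹ • p)) c
    rw [hf s hs φ p, smul_zero] at this
    exact this

theorem VS_inv (S : Finset (MonoidAlgebra K (FreeGroup ℕ))) (g : H) (f : P → K)
    (hf : f ∈ VS H P S) : funRep K H P g f ∈ VS H P S := by
  intro s hs φ p
  have h := hf s hs ((MulAut.conj g⁻¹).toMonoidHom.comp φ) (g⁻¹ • p)
  refine Eq.trans ?_ h
  congr 1
  funext w
  rw [funRep_apply]
  congr 1
  rw [MonoidHom.comp_apply]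
  change g⁻¹ • (φ w)⁻¹ • p = (g⁻¹ * φ w * g⁻¹⁻¹)⁻¹ • g⁻¹ • p
  rw [smul_smul, smul_smul]
  congr 1
  group

end VS

/-! ### The identity `u*` -/

section Ustar

/-- The word `y₁² y₂² y₁⁻² y₂⁻²`. -/
def nw : FreeGroup ℕ :=
  FreeGroup.of 0 ^ 2 * FreeGroup.of 1 ^ 2 * (FreeGroup.of 0 ^ 2)⁻¹ * (FreeGroup.of 1 ^ 2)⁻¹

/-- The word `∏ y_{2+i}²`. -/
def ww (r : ℕ) : FreeGroup ℕ := (List.ofFn fun i : Fin r => FreeGroup.of (2 + (i : ℕ)) ^ 2).prod

/-- The conjugated word. -/
def nw' (r : ℕ) : FreeGroup ℕ := (ww r)⁻¹ * nw * ww r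

/-- The element `1 + n + n' + n n'`. -/
noncomputable def ustar (K : Type*) [Field K] (r : ℕ) : MonoidAlgebra K (FreeGroup ℕ) :=
  MonoidAlgebra.single 1 1 + MonoidAlgebra.single nw 1 + MonoidAlgebra.single (nw' r) 1 +
    MonoidAlgebra.single (nw * nw' r) 1

theorem pair_ustar {K E : Type*} [Field K] [AddCommGroup E] [Module K E] (r : ℕ)
    (F : FreeGroup ℕ → E) :
    pair (ustar K r) F = F 1 + F nw + F (nw' r) + F (nw * nw' r) := by
  unfold ustar
  rw [pair_add_left, pair_add_left, pair_add_left, pair_single, pair_single, pair_single,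
    pair_single]
  simp only [one_smul]

theorem wr_sq_sw {U : Type*} [CommGroup U] (g : Wr U) : (g ^ 2).sw = 0 := by
  rw [pow_two, Wr.mul_sw]
  exact CharTwo.add_self_eq_zero g.sw

theorem wr_comm {U : Type*} [CommGroup U] {g h : Wr U} (hg : g.sw = 0) (hh : h.sw = 0) :
    g * h = h * g := by
  ext k
  · simp [hg, hh]
  · simp [hg, hh, mul_comm]

theorem nw_lin {U M : Type*} [CommGroup U] [AddCommGroup M] [DistribMulAction (Wr U) M]
    (φ : FreeGroup ℕ →* Aff (Wr U) M) : (φ nw).lin = 1 := by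
  have h1 : (φ (FreeGroup.of 0 ^ 2)).lin.sw = 0 := by
    rw [map_pow, ← Aff.linHom_apply, map_pow]
    exact wr_sq_sw _
  have h2 : (φ (FreeGroup.of 1 ^ 2)).lin.sw = 0 := by
    rw [map_pow, ← Aff.linHom_apply, map_pow]
    exact wr_sq_sw _
  unfold nw
  rw [map_mul, map_mul, map_mul, map_inv, map_inv, Aff.mul_lin, Aff.mul_lin, Aff.mul_lin,
    Aff.inv_lin, Aff.inv_lin, wr_comm h1 h2, mul_inv_cancel_right, mul_inv_cancel]

theorem ww_sw {U M : Type*} [CommGroup U] [AddCommGroup M] [DistribMulAction (Wr U) M]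
    (φ : FreeGroup ℕ →* Aff (Wr U) M) (r : ℕ) : (φ (ww r)).lin.sw = 0 := by
  unfold ww
  rw [← Aff.linHom_apply, map_list_prod, map_list_prod, List.map_ofFn, List.map_ofFn]
  have key : ∀ l : List (Wr U), (∀ x ∈ l, x.sw = 0) → l.prod.sw = 0 := by
    intro l hl
    induction l with
    | nil => rfl
    | cons a l ih =>
      rw [List.prod_cons, Wr.mul_sw, hl a (List.mem_cons_self ..),
        ih fun x hx => hl x (List.mem_cons_of_mem _ hx), add_zero]
  refine key _ fun x hx => ?_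
  rw [List.mem_ofFn] at hx
  obtain ⟨i, rfl⟩ := hx
  simp only [Function.comp_apply, map_pow]
  exact wr_sq_sw _

end Ustar

section Holds

variable {K : Type*} [Field K] [CharP K 2]

theorem four (x : K) : x + x = 0 := CharTwo.add_self_eq_zero x

/-- `u*` is an identity of the seven dimensional representation. -/
theorem ustar_holds (r : ℕ) (φ : FreeGroup ℕ →* GG K) (f : WW K → K) (hf : f ∈ VV K)
    (P : WW K) : pair (ustar K r) (fun w => f ((φ w)⁻¹ • P)) = 0 := by
  -- the translations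
  obtain ⟨s, hs⟩ : ∃ s : ZMod 2 → Kˣ, (φ (ww r)).lin = ⟨0, s⟩ :=
    ⟨(φ (ww r)).lin.s, Wr.ext (ww_sw φ r) rfl⟩
  obtain ⟨a, ha⟩ : ∃ a : WW K, φ nw = ⟨1, a⟩ := ⟨(φ nw).tr, Aff.ext (nw_lin φ) rfl⟩
  have ha' : φ (nw' r) = ⟨1, (φ (ww r)).lin⁻¹ • a⟩ := by
    unfold nw'
    rw [map_mul, map_mul, map_inv, ha]
    refine Aff.ext ?_ ?_
    · simp
    · simp
  have e1 : ∀ Q : WW K, (⟨1, Q⟩ : GG K)⁻¹ • P = P - Q := by
    intro Q
    rw [Aff.smul_def]
    simp [sub_eq_neg_add]
  have e2 : (φ (nw * nw' r)) = ⟨1, a + (φ (ww r)).lin⁻¹ • a⟩ := by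
    rw [map_mul, ha, ha']
    refine Aff.ext ?_ ?_
    · simp
    · simp
  rw [pair_ustar, e2, ha', ha, e1, e1, e1, map_one, inv_one, one_smul]
  -- second differences
  have h1 : ∀ k, ((φ (ww r)).lin⁻¹ • a).1 k = ((s k)⁻¹ : Kˣ) * a.1 k := by
    intro k
    rw [hs]
    change (((⟨0, s⟩ : Wr Kˣ)⁻¹).s k : K) * a.1 (k + ((⟨0, s⟩ : Wr Kˣ)⁻¹).sw) = _
    simp
  have h2 : ∀ k, ((φ (ww r)).lin⁻¹ • a).2 k = ((s k)⁻¹ : Kˣ) * a.2 k := by
    intro k
    rw [hs]
    change (((⟨0, s⟩ : Wr Kˣ)⁻¹).s k : K) * a.2 (k + ((⟨0, s⟩ : Wr Kˣ)⁻¹).sw) = _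
    simp
  generalize (φ (ww r)).lin⁻¹ • a = b at h1 h2
  unfold VV genSet at hf
  induction hf using Submodule.span_induction with
  | mem f hf =>
    have two : (2 : K) = 0 := CharTwo.two_eq_zero
    rcases hf with ((hf | ⟨k, rfl⟩) | ⟨k, rfl⟩) | ⟨k, rfl⟩
    · have hf' : f = fun _ => 1 := hf
      subst hf'
      linear_combination 2 * two
    · simp only [Prod.fst_sub, Prod.fst_add, Pi.sub_apply, Pi.add_apply]
      linear_combination (2 * P.1 k - a.1 k - b.1 k) * two
    · simp only [Prod.snd_sub, Prod.snd_add, Pi.sub_apply, Pi.add_apply]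
      linear_combination (2 * P.2 k - a.2 k - b.2 k) * two
    · simp only [Prod.fst_sub, Prod.fst_add, Prod.snd_sub, Prod.snd_add, Pi.sub_apply,
        Pi.add_apply, h1 k, h2 k]
      generalize ((((s k)⁻¹ : Kˣ)) : K) = σ
      linear_combination (2 * P.1 k * P.2 k - P.1 k * a.2 k - P.2 k * a.1 k
        - P.1 k * (σ * a.2 k) - P.2 k * (σ * a.1 k) + a.1 k * a.2 k
        + σ * a.1 k * (σ * a.2 k) + σ * a.1 k * a.2 k) * two
  | zero => simp
  | add f g _ _ hf hg =>
    simp only [Pi.add_apply]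
    linear_combination hf + hg
  | smul c f _ hf =>
    simp only [Pi.smul_apply, smul_eq_mul]
    linear_combination c * hf

end Holds

end Pool.Agent.MP_d8349b_al
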