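import Pool.Agent.Work.MP_d8349b_al.Defs

/-!
MP_d8349b_al: identities over an infinite field extend to all commutative algebras.
-/

namespace Pool.Agent.MP_d8349b_al

/-- Functoriality of pairs of pairs. -/
def WWmap {R R' : Type*} [CommRing R] [CommRing R'] (f : R →+* R') : WW R →+ WW R' where
  toFun p := (fun k => f (p.1 k), fun k => f (p.2 k))
  map_zero' := by ext <;> simp
  map_add' p q := by ext <;> simp

/-- Functoriality of `GG`. -/
def GGmap {R R' : Type*} [CommRing R] [CommRing R'] (f : R →+* R') : GG R →* GG R' :=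
  Aff.map (Wr.map (Units.map (f : R →* R'))) (WWmap f) (by
    intro a m
    ext k
    · change f ((a.s k : R) * m.1 (k + a.sw)) = _
      rw [map_mul]
      rfl
    · change f ((a.s k : R) * m.2 (k + a.sw)) = _
      rw [map_mul]
      rfl)

theorem WWmap_smul {R R' : Type*} [CommRing R] [CommRing R'] (f : R →+* R') (g : GG R)
    (p : WW R) : WWmap f (g • p) = GGmap f g • WWmap f p :=
  Aff.map_smul _ _ _ g p

/-- The functional of `u` along an orbit. -/
noncomputable def orb {K I R : Type*} [Field K] [CommRing R] [Algebra K R]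
    (u : MonoidAlgebra K (FreeGroup I)) (φ : FreeGroup I →* GG R) (p : WW R) (k : ZMod 2) : R :=
  pair u (fun w => ((φ w)⁻¹ • p).1 k * ((φ w)⁻¹ • p).2 k)

theorem orb_map {K I R R' : Type*} [Field K] [CommRing R] [Algebra K R] [CommRing R']
    [Algebra K R'] (f : R →ₐ[K] R') (u : MonoidAlgebra K (FreeGroup I))
    (φ : FreeGroup I →* GG R) (p : WW R) (k : ZMod 2) :
    f (orb u φ p k) = orb u ((GGmap (f : R →+* R')).comp φ) (WWmap (f : R →+* R') p) k := by
  unfold orb
  have h := pair_map u (fun w => ((φ w)⁻¹ • p).1 k * ((φ w)⁻¹ • p).2 k) f.toLinearMap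
  refine h.trans ?_
  congr 1
  funext w
  change f (((φ w)⁻¹ • p).1 k * ((φ w)⁻¹ • p).2 k) = _
  have e : (GGmap (f : R →+* R') (φ w))⁻¹ • WWmap (f : R →+* R') p =
      WWmap (f : R →+* R') ((φ w)⁻¹ • p) := by
    rw [WWmap_smul, map_inv]
  rw [MonoidHom.comp_apply, e, map_mul]
  rfl

/-! ### The universal monoid -/

section Univ

set_option linter.unusedSectionVars false

variable (I : Type*) [Fintype I] [DecidableEq I]

/-- Indices of the polynomial variables. -/
abbrev PIdx (I : Type*) : Type _ := (Option I × ZMod 2) × Bool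

/-- The universal monoid. -/
abbrev MM (I : Type*) : Type _ :=
  (I × ZMod 2 → Multiplicative ℤ) × (PIdx I → Multiplicative ℕ)

variable {I}

theorem separate {K : Type*} [Field K] (t : Kˣ) (ht : Function.Injective (fun n : ℤ => t ^ n))
    {z z' : MM I} (h : z ≠ z') : ∃ θ : MM I →* K, θ z ≠ θ z' := by
  by_contra hc
  push Not at hc
  apply h
  have hinj : Function.Injective (fun n : ℤ => (t ^ n : Kˣ)) := ht
  ext j
  · have := hc ((Units.coeHom K).comp ((zpowersHom Kˣ t).comp
      ((Pi.evalMonoidHom (fun _ => Multiplicative ℤ) j).comp (MonoidHom.fst _ _))))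
    have h2 : t ^ (z.1 j).toAdd = t ^ (z'.1 j).toAdd := Units.ext this
    exact Multiplicative.toAdd.injective (hinj h2)
  · have := hc ((powersHom K (t : K)).comp
      ((Pi.evalMonoidHom (fun _ => Multiplicative ℕ) j).comp (MonoidHom.snd _ _)))
    have h3 : (t : K) ^ (z.2 j).toAdd = (t : K) ^ (z'.2 j).toAdd := this
    have h2 : t ^ ((z.2 j).toAdd : ℤ) = t ^ ((z'.2 j).toAdd : ℤ) := by
      apply Units.ext
      simpa using h3
    exact Multiplicative.toAdd.injective (by exact_mod_cast hinj h2)

theorem eq_zero_of_lift {K : Type*} [Field K] (t : Kˣ)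
    (ht : Function.Injective (fun n : ℤ => t ^ n)) (x : MonoidAlgebra K (MM I))
    (hx : ∀ θ : MM I →* K, MonoidAlgebra.lift K K (MM I) θ x = 0) : x = 0 := by
  have hli := linearIndependent_monoidHom (MM I →* K) K
  have hinj : Function.Injective (fun z : MM I => (MonoidHom.eval z : (MM I →* K) →* K)) := by
    intro z z' h
    by_contra hne
    obtain ⟨θ, hθ⟩ := separate t ht hne
    exact hθ (DFunLike.congr_fun h θ)
  have h2 := hli.comp _ hinj
  have h3 := linearIndependent_iff.1 h2 x.coeff
  have h4 : x.coeff = 0 := by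
    apply h3
    rw [Finsupp.linearCombination_apply]
    funext θ
    have h5 := hx θ
    rw [MonoidAlgebra.lift_apply] at h5
    rw [Finsupp.sum, Finset.sum_apply]
    exact h5
  exact congrArg MonoidAlgebra.ofCoeff h4

variable (K : Type*) [Field K]

/-- The generic units. -/
noncomputable def gunit (j : I × ZMod 2) : (MonoidAlgebra K (MM I))ˣ :=
  Units.map ((MonoidAlgebra.of K (MM I)).comp ((MonoidHom.inl _ _).comp
    (MonoidHom.mulSingle (fun _ => Multiplicative ℤ) j))) (toUnits (Multiplicative.ofAdd 1))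

/-- The generic variables. -/
noncomputable def gvar (j : PIdx I) : MonoidAlgebra K (MM I) :=
  MonoidAlgebra.of K (MM I) (1, Pi.mulSingle j (Multiplicative.ofAdd 1))

/-- The generic homomorphism. -/
noncomputable def ghom (σ : I → ZMod 2) : FreeGroup I →* GG (MonoidAlgebra K (MM I)) :=
  FreeGroup.lift fun i => ⟨⟨σ i, fun k => gunit K (i, k)⟩,
    (fun k => gvar K ((some i, k), false), fun k => gvar K ((some i, k), true))⟩

/-- The generic point. -/
noncomputable def gpt (I : Type*) [Fintype I] [DecidableEq I] : WW (MonoidAlgebra K (MM I)) :=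
  (fun k => gvar K ((none, k), false), fun k => gvar K ((none, k), true))

variable {K}

/-- The homomorphism of the universal monoid with given values. -/
noncomputable def spec {R : Type*} [CommRing R] (v : I × ZMod 2 → Rˣ) (x : PIdx I → R) :
    MM I →* R :=
  MonoidHom.coprod
    (∏ j, (Units.coeHom R).comp ((zpowersHom Rˣ (v j)).comp
      (Pi.evalMonoidHom (fun _ => Multiplicative ℤ) j)))
    (∏ j, (powersHom R (x j)).comp (Pi.evalMonoidHom (fun _ => Multiplicative ℕ) j))

theorem spec_unit {R : Type*} [CommRing R] (v : I × ZMod 2 → Rˣ) (x : PIdx I → R)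
    (j : I × ZMod 2) (n : Multiplicative ℤ) :
    spec v x (Pi.mulSingle j n, 1) = ((v j ^ n.toAdd : Rˣ) : R) := by
  unfold spec
  rw [MonoidHom.coprod_apply, map_one, mul_one, MonoidHom.finsetProd_apply,
    Finset.prod_eq_single j]
  · simp
  · intro b _ hb
    simp [Pi.mulSingle_eq_of_ne hb]
  · simp

theorem spec_var {R : Type*} [CommRing R] (v : I × ZMod 2 → Rˣ) (x : PIdx I → R)
    (j : PIdx I) : spec v x (1, Pi.mulSingle j (Multiplicative.ofAdd 1)) = x j := by
  unfold spec
  rw [MonoidHom.coprod_apply, map_one, one_mul, MonoidHom.finsetProd_apply,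
    Finset.prod_eq_single j]
  · simp
  · intro b _ hb
    simp [Pi.mulSingle_eq_of_ne hb]
  · simp

/-- Identities extend from an infinite field to all commutative algebras. -/
theorem generic (t : Kˣ) (ht : Function.Injective (fun n : ℤ => t ^ n))
    (u : MonoidAlgebra K (FreeGroup I))
    (hu : ∀ (φ : FreeGroup I →* GG K) (p : WW K) (k : ZMod 2), orb u φ p k = 0)
    {R : Type*} [CommRing R] [Algebra K R] (φ : FreeGroup I →* GG R) (p : WW R) (k : ZMod 2) :
    orb u φ p k = 0 := by
  have h0 : orb u (ghom K fun i => (φ (FreeGroup.of i)).lin.sw) (gpt K I) k = 0 := by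
    apply eq_zero_of_lift t ht
    intro θ
    rw [orb_map]
    exact hu _ _ _
  have h1 := congrArg (MonoidAlgebra.lift K R (MM I)
    (spec (fun j => (φ (FreeGroup.of j.1)).lin.s j.2)
      (fun j => bif j.2 then (Option.elim j.1.1 p (fun i => (φ (FreeGroup.of i)).tr)).2 j.1.2
        else (Option.elim j.1.1 p (fun i => (φ (FreeGroup.of i)).tr)).1 j.1.2))) h0
  rw [orb_map, map_zero] at h1
  convert h1 using 2
  · apply FreeGroup.ext_hom
    intro i
    rw [MonoidHom.comp_apply]
    unfold ghom
    rw [FreeGroup.lift_apply_of]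
    ext k'
    · rfl
    · change ((φ (FreeGroup.of i)).lin.s k' : R) =
        MonoidAlgebra.lift K R (MM I) _ (MonoidAlgebra.of K (MM I)
          (Pi.mulSingle (i, k') (Multiplicative.ofAdd 1), 1))
      rw [MonoidAlgebra.lift_of, spec_unit]
      simp
    · change _ = MonoidAlgebra.lift K R (MM I) _ (MonoidAlgebra.of K (MM I)
          (1, Pi.mulSingle ((some i, k'), false) (Multiplicative.ofAdd 1)))
      rw [MonoidAlgebra.lift_of, spec_var]
      rfl
    · change _ = MonoidAlgebra.lift K R (MM I) _ (MonoidAlgebra.of K (MM I)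
          (1, Pi.mulSingle ((some i, k'), true) (Multiplicative.ofAdd 1)))
      rw [MonoidAlgebra.lift_of, spec_var]
      rfl
  · ext k'
    · change _ = MonoidAlgebra.lift K R (MM I) _ (MonoidAlgebra.of K (MM I)
          (1, Pi.mulSingle ((none, k'), false) (Multiplicative.ofAdd 1)))
      rw [MonoidAlgebra.lift_of, spec_var]
      rfl
    · change _ = MonoidAlgebra.lift K R (MM I) _ (MonoidAlgebra.of K (MM I)
          (1, Pi.mulSingle ((none, k'), true) (Multiplicative.ofAdd 1)))
      rw [MonoidAlgebra.lift_of, spec_var]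
      rfl

end Univ

end Pool.Agent.MP_d8349b_al
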