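import Pool.Agent.Work.MP_d8349b_al.Defs
import Pool.Agent.Work.MP_d8349b_al.Count

/-!
MP_d8349b_al: the class two group `Qn ι` of pairs `(e, T)`.
-/

namespace Pool.Agent.MP_d8349b_al

open Matrix

/-- Pairs `(e, T)` with `(e, T) (e', T') = (e + e', T + T' + e ⊗ e')`. -/
@[ext]
structure Qn (ι : Type*) where
  e : ι → ZMod 2
  T : Matrix ι ι (ZMod 2)

namespace Qn

variable {ι : Type*}

instance : Mul (Qn ι) := ⟨fun g h => ⟨g.e + h.e, g.T + h.T + vecMulVec g.e h.e⟩⟩
instance : One (Qn ι) := ⟨⟨0, 0⟩⟩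
instance : Inv (Qn ι) := ⟨fun g => ⟨-g.e, -g.T + vecMulVec g.e g.e⟩⟩

@[simp] theorem mul_e (g h : Qn ι) : (g * h).e = g.e + h.e := rfl
@[simp] theorem mul_T (g h : Qn ι) : (g * h).T = g.T + h.T + vecMulVec g.e h.e := rfl
@[simp] theorem one_e : (1 : Qn ι).e = 0 := rfl
@[simp] theorem one_T : (1 : Qn ι).T = 0 := rfl
@[simp] theorem inv_e (g : Qn ι) : (g⁻¹).e = -g.e := rfl
@[simp] theorem inv_T (g : Qn ι) : (g⁻¹).T = -g.T + vecMulVec g.e g.e := rfl

instance : Group (Qn ι) where
  mul_assoc a b c := by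
    ext i j
    · simp [add_assoc]
    · simp [vecMulVec_apply]
      ring
  one_mul a := by
    ext i j
    · simp
    · simp
  mul_one a := by
    ext i j
    · simp
    · simp
  inv_mul_cancel a := by
    ext i j
    · simp [CharTwo.add_self_eq_zero]
    · simp [vecMulVec_apply, CharTwo.add_self_eq_zero]

theorem neg_eq (x : ι → ZMod 2) : -x = x := by
  funext i
  exact ZMod.neg_eq_self_mod_two (x i)

theorem neg_eq_mat (x : Matrix ι ι (ZMod 2)) : -x = x := by
  ext i j
  exact ZMod.neg_eq_self_mod_two (x i j)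

theorem inv_e' (g : Qn ι) : (g⁻¹).e = g.e := by rw [inv_e, neg_eq]

variable [Fintype ι] [DecidableEq ι]

/-- The parity of the number of solutions of `χᵗ T = 𝟏`, for `e = 0`. -/
noncomputable def D (K : Type*) [Field K] (g : Qn ι) : K :=
  if g.e = 0 then cnt K g.T (fun _ => 1) else 0

theorem D_inv (K : Type*) [Field K] (g : Qn ι) : D K g⁻¹ = D K g := by
  unfold D
  rw [inv_e']
  by_cases h : g.e = 0
  · rw [if_pos h, if_pos h, inv_T, neg_eq_mat, h]
    congr 1
    ext i j
    simp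
  · rw [if_neg h, if_neg h]

theorem D_one (K : Type*) [Field K] [CharP K 2] [Nonempty ι] : D K (1 : Qn ι) = 0 := by
  unfold D
  rw [if_pos one_e]
  refine cnt_eq_zero (z := fun _ => 1) ?_ ?_ _
  · intro h
    have := congrFun h (Classical.arbitrary ι)
    simp at this
  · simp

theorem D_conj (K : Type*) [Field K] (g x : Qn ι) : D K (x⁻¹ * g * x) = D K g := by
  unfold D
  have h1 : (x⁻¹ * g * x).e = g.e := by
    rw [mul_e, mul_e, inv_e]
    abel
  rw [h1]
  by_cases h : g.e = 0
  · rw [if_pos h, if_pos h]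
    congr 1
    ext i j
    simp only [mul_T, inv_T, mul_e, inv_e, h, neg_eq, neg_eq_mat, add_zero, Matrix.add_apply,
      vecMulVec_apply, Pi.zero_apply, mul_zero]
    have h2 : x.T i j + x.T i j = 0 := CharTwo.add_self_eq_zero _
    have h3 : x.e i * x.e j + x.e i * x.e j = 0 := CharTwo.add_self_eq_zero _
    linear_combination h2 + h3
  · rw [if_neg h, if_neg h]

end Qn

/-! ### The homomorphisms to the wreath group -/

/-- The elementary abelian group `Ξ`. -/
abbrev Xi (ι : Type*) : Type _ := Multiplicative ((ι → ZMod 2) × (ι → ZMod 2))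

/-- The homomorphism `η_χ`. -/
def eta {ι : Type*} [Fintype ι] (χ : ι → ZMod 2) : Qn ι →* Wr (Xi ι) where
  toFun g := ⟨χ ⬝ᵥ g.e, fun k => Multiplicative.ofAdd (g.e, Matrix.vecMul χ g.T + k • g.e)⟩
  map_one' := by
    refine Wr.ext ?_ (funext fun k => ?_)
    · simp
    · apply Multiplicative.toAdd.injective
      refine Prod.ext rfl ?_
      change Matrix.vecMul χ (0 : Matrix ι ι (ZMod 2)) + k • (0 : ι → ZMod 2) = 0
      rw [Matrix.vecMul_zero, smul_zero, add_zero]
  map_mul' a b := by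
    refine Wr.ext ?_ (funext fun k => ?_)
    · simp [dotProduct_add]
    · apply Multiplicative.toAdd.injective
      refine Prod.ext rfl ?_
      change Matrix.vecMul χ (a.T + b.T + vecMulVec a.e b.e) + k • (a.e + b.e) =
        (Matrix.vecMul χ a.T + k • a.e) + (Matrix.vecMul χ b.T + (k + χ ⬝ᵥ a.e) • b.e)
      rw [Matrix.vecMul_add, Matrix.vecMul_add, Matrix.vecMul_vecMulVec, smul_add, add_smul]
      abel

end Pool.Agent.MP_d8349b_al
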