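import Pool.Agent.Work.MP_d8349b_al.Generic
import Pool.Agent.Work.MP_d8349b_al.Qn

/-!
MP_d8349b_al: the module of functions on `Qn ι` and its projections to pairs.
-/

namespace Pool.Agent.MP_d8349b_al

open Matrix

/-- The module `K[Qn ι]`. -/
abbrev MQ (K ι : Type*) [Field K] : Type _ := Qn ι →₀ K

section

variable {K : Type*} [Field K] {ι : Type*}

noncomputable instance : DistribMulAction (Qn ι × Kˣ) (MQ K ι) where
  smul a x := (a.2 : K) • Finsupp.mapDomain (fun X => a.1 * X) x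
  one_smul x := by
    change ((1 : Kˣ) : K) • Finsupp.mapDomain (fun X => (1 : Qn ι) * X) x = x
    simp only [Units.val_one, one_mul, one_smul]
    exact Finsupp.mapDomain_id
  mul_smul a b x := by
    change ((a.2 * b.2 : Kˣ) : K) • Finsupp.mapDomain (fun X => (a.1 * b.1) * X) x =
      (a.2 : K) • Finsupp.mapDomain (fun X => a.1 * X)
        ((b.2 : K) • Finsupp.mapDomain (fun X => b.1 * X) x)
    rw [Finsupp.mapDomain_smul, smul_smul, ← Finsupp.mapDomain_comp, Units.val_mul]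
    congr 2
    funext X
    simp [mul_assoc]
  smul_zero a := by
    change (a.2 : K) • Finsupp.mapDomain (fun X => a.1 * X) 0 = 0
    simp
  smul_add a x y := by
    change (a.2 : K) • Finsupp.mapDomain (fun X => a.1 * X) (x + y) = _
    rw [Finsupp.mapDomain_add, smul_add]
    rfl

theorem MQ_smul_single (a : Qn ι × Kˣ) (X : Qn ι) (c : K) :
    a • (Finsupp.single X c : MQ K ι) = Finsupp.single (a.1 * X) ((a.2 : K) * c) := by
  change (a.2 : K) • Finsupp.mapDomain (fun X => a.1 * X) (Finsupp.single X c) = _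
  rw [Finsupp.mapDomain_single, Finsupp.smul_single, smul_eq_mul]

theorem MQ_smul_smul (a : Qn ι × Kˣ) (c : K) (x : MQ K ι) : a • (c • x) = c • (a • x) := by
  change (a.2 : K) • Finsupp.mapDomain (fun X => a.1 * X) (c • x) =
    c • ((a.2 : K) • Finsupp.mapDomain (fun X => a.1 * X) x)
  rw [Finsupp.mapDomain_smul, smul_comm]

end

/-- The group algebra of `Ξ`. -/
abbrev RX (K ι : Type*) [Field K] : Type _ := MonoidAlgebra K (Xi ι)

section

set_option linter.unusedSectionVars false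

variable (K : Type*) [Field K] {ι : Type*} [Fintype ι]

/-- The units of `K[Ξ]` given by `Ξ` and `Kˣ`. -/
noncomputable def ru : Xi ι × Kˣ →* (RX K ι)ˣ :=
  MonoidHom.coprod ((Units.map (MonoidAlgebra.of K (Xi ι))).comp
    (toUnits : Xi ι ≃* (Xi ι)ˣ).toMonoidHom)
    (Units.map (algebraMap K (RX K ι) : K →* RX K ι))

theorem ru_apply (z : Xi ι) (μ : Kˣ) :
    ((ru K (z, μ) : (RX K ι)ˣ) : RX K ι) = MonoidAlgebra.single z (μ : K) := by
  unfold ru
  rw [MonoidHom.coprod_apply, Units.val_mul]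
  change MonoidAlgebra.of K (Xi ι) z * algebraMap K (RX K ι) (μ : K) = _
  rw [MonoidAlgebra.of_apply, MonoidAlgebra.coe_algebraMap]
  simp [MonoidAlgebra.single_mul_single]

/-- The homomorphism `η_χ` with scalars. -/
def etaP (χ : ι → ZMod 2) : Qn ι × Kˣ →* Wr (Xi ι × Kˣ) where
  toFun a := ⟨(eta χ a.1).sw, fun k => ((eta χ a.1).s k, a.2)⟩
  map_one' := by
    refine Wr.ext ?_ (funext fun k => ?_)
    · simp
    · refine Prod.ext ?_ rfl
      simp
  map_mul' a b := by
    refine Wr.ext ?_ (funext fun k => ?_)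
    · simp
    · refine Prod.ext ?_ rfl
      change (eta χ (a.1 * b.1)).s k = (eta χ a.1).s k * (eta χ b.1).s (k + (eta χ a.1).sw)
      rw [map_mul, Wr.mul_s]

/-- The homomorphism `η_χ` with values in the wreath group of units of `K[Ξ]`. -/
noncomputable def etaL (χ : ι → ZMod 2) : Qn ι × Kˣ →* Wr (RX K ι)ˣ :=
  (Wr.map (ru K)).comp (etaP K χ)

variable {K}

theorem etaL_smul (χ : ι → ZMod 2) (a : Qn ι × Kˣ) (x : ZMod 2 → RX K ι) (k : ZMod 2) :
    (etaL K χ a • x) k = MonoidAlgebra.single (Multiplicative.ofAdd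
      (a.1.e, Matrix.vecMul χ a.1.T + k • a.1.e)) (a.2 : K) * x (k + χ ⬝ᵥ a.1.e) := by
  rw [Wr.smul_apply]
  congr 1
  exact ru_apply K _ _

theorem wr_smul_comm {R : Type*} [CommRing R] [Algebra K R] (g : Wr Rˣ) (c : K)
    (x : ZMod 2 → R) : g • (c • x) = c • (g • x) := by
  funext k
  rw [Wr.smul_apply, Pi.smul_apply, Pi.smul_apply, Wr.smul_apply, mul_smul_comm]

theorem etaL_one_smul (χ : ι → ZMod 2) (μ : Kˣ) (x : ZMod 2 → RX K ι) :
    etaL K χ (1, μ) • x = (μ : K) • x := by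
  funext k
  rw [etaL_smul, Pi.smul_apply]
  simp only [Qn.one_e, Qn.one_T, dotProduct_zero, add_zero, Matrix.vecMul_zero, smul_zero]
  rw [Algebra.smul_def, MonoidAlgebra.coe_algebraMap]
  rfl

/-- The projection `π_χ^{(j)}`. -/
noncomputable def piL (χ : ι → ZMod 2) (j : ZMod 2) : MQ K ι →ₗ[K] (ZMod 2 → RX K ι) :=
  Finsupp.linearCombination K fun X => etaL K χ (X, 1) • (Pi.single j 1 : ZMod 2 → RX K ι)

theorem piL_single (χ : ι → ZMod 2) (j : ZMod 2) (X : Qn ι) (c : K) :
    piL χ j (Finsupp.single X c) =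
      c • (etaL K χ (X, 1) • (Pi.single j 1 : ZMod 2 → RX K ι)) := by
  unfold piL
  rw [Finsupp.linearCombination_single]

theorem piL_single_apply (χ : ι → ZMod 2) (j : ZMod 2) (X : Qn ι) (c : K) (k : ZMod 2) :
    piL χ j (Finsupp.single X c) k = if k + χ ⬝ᵥ X.e = j then
      MonoidAlgebra.single (Multiplicative.ofAdd (X.e, Matrix.vecMul χ X.T + k • X.e)) c
      else 0 := by
  rw [piL_single, Pi.smul_apply, etaL_smul]
  by_cases h : k + χ ⬝ᵥ X.e = j
  · rw [if_pos h, h, Pi.single_eq_same, mul_one]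
    simp [MonoidAlgebra.smul_single]
  · rw [if_neg h, Pi.single_eq_of_ne h, mul_zero, smul_zero]

theorem piL_smul (χ : ι → ZMod 2) (j : ZMod 2) (a : Qn ι × Kˣ) (x : MQ K ι) :
    piL χ j (a • x) = etaL K χ a • piL χ j x := by
  induction x using Finsupp.induction_linear with
  | zero => simp
  | add x y hx hy => rw [smul_add, map_add, hx, hy, map_add, smul_add]
  | single X c =>
    rw [MQ_smul_single, piL_single, piL_single, wr_smul_comm, ← mul_smul (etaL K χ a),
      ← map_mul]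
    have h1 : a * (X, (1 : Kˣ)) = (1, a.2) * (a.1 * X, 1) := by
      refine Prod.ext ?_ ?_
      · simp
      · simp
    rw [h1, map_mul, mul_smul (etaL K χ (1, a.2)), etaL_one_smul, smul_smul, mul_comm c]

end

section

variable {K : Type*} [Field K] {ι : Type*} [Fintype ι] {I : Type*} [Fintype I] [DecidableEq I]

/-- Identities evaluated on pairs of orbits in `K[Qn ι]`. -/
theorem cprime (t : Kˣ) (ht : Function.Injective (fun n : ℤ => t ^ n))
    (u : MonoidAlgebra K (FreeGroup I))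
    (hu : ∀ (φ : FreeGroup I →* GG K) (p : WW K) (k : ZMod 2), orb u φ p k = 0)
    (χ : ι → ZMod 2) (j₁ j₂ k : ZMod 2)
    (φ : FreeGroup I →* Aff (Qn ι × Kˣ) (MQ K ι × MQ K ι)) (p : MQ K ι × MQ K ι) :
    pair u (fun w => piL χ j₁ ((φ w)⁻¹ • p).1 k * piL χ j₂ ((φ w)⁻¹ • p).2 k) = 0 := by
  have hc : ∀ (a : Qn ι × Kˣ) (m : MQ K ι × MQ K ι),
      (((piL χ j₁).toAddMonoidHom.prodMap (piL χ j₂).toAddMonoidHom) (a • m) : WW (RX K ι)) =
        etaL K χ a • ((piL χ j₁).toAddMonoidHom.prodMap (piL χ j₂).toAddMonoidHom) m := by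
    intro a m
    refine Prod.ext ?_ ?_
    · exact piL_smul χ j₁ a m.1
    · exact piL_smul χ j₂ a m.2
  have h := generic t ht u hu ((Aff.map (etaL K χ) _ hc).comp φ)
    (((piL χ j₁).toAddMonoidHom.prodMap (piL χ j₂).toAddMonoidHom) p) k
  unfold orb at h
  refine Eq.trans ?_ h
  congr 1
  funext w
  have h2 := Aff.map_smul (etaL K χ) _ hc (φ w)⁻¹ p
  rw [map_inv] at h2
  rw [MonoidHom.comp_apply, ← h2]
  rfl

end

end Pool.Agent.MP_d8349b_al
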