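import Pool.Agent.Work.MP_d8349b_al.Proj

/-!
MP_d8349b_al: the bilinear and the quadratic form on `K[Qn ι]`.
-/

namespace Pool.Agent.MP_d8349b_al

open Matrix

section Kernel

variable {K : Type*} [Field K] {α : Type*}

/-- The bilinear form with kernel `k`. -/
noncomputable def kb (k : α → α → K) : (α →₀ K) →ₗ[K] (α →₀ K) →ₗ[K] K :=
  Finsupp.linearCombination K fun X => Finsupp.linearCombination K (k X)

theorem kb_single (k : α → α → K) (X Y : α) (c d : K) :
    kb k (Finsupp.single X c) (Finsupp.single Y d) = c * (d * k X Y) := by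
  unfold kb
  rw [Finsupp.linearCombination_single, LinearMap.smul_apply,
    Finsupp.linearCombination_single, smul_eq_mul, smul_eq_mul]

/-- Two bilinear maps agreeing on basis vectors agree. -/
theorem bil_ext {E : Type*} [AddCommGroup E] [Module K E]
    (B B' : (α →₀ K) →ₗ[K] (α →₀ K) →ₗ[K] E)
    (h : ∀ X Y, B (Finsupp.single X 1) (Finsupp.single Y 1) =
      B' (Finsupp.single X 1) (Finsupp.single Y 1)) : B = B' := by
  ext X Y
  exact h X Y

/-- Uniqueness of quadratic maps with given polarization and values on the multiples of the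
basis vectors. -/
theorem quad_ext (Q Q' : (α →₀ K) → K) (β : (α →₀ K) → (α →₀ K) → K)
    (h0 : Q 0 = Q' 0)
    (hQ : ∀ x y, Q (x + y) = Q x + Q y + β x y)
    (hQ' : ∀ x y, Q' (x + y) = Q' x + Q' y + β x y)
    (hs : ∀ X c, Q (Finsupp.single X c) = Q' (Finsupp.single X c)) (x : α →₀ K) :
    Q x = Q' x := by
  induction x using Finsupp.induction_linear with
  | zero => exact h0
  | add x y hx hy => rw [hQ, hQ', hx, hy]
  | single X c => exact hs X c

end Kernel

section Forms

variable {K : Type*} [Field K] {ι : Type*} [Fintype ι] [DecidableEq ι]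

/-- The polar form. -/
noncomputable def beta (K ι : Type*) [Field K] [Fintype ι] [DecidableEq ι] :
    MQ K ι →ₗ[K] MQ K ι →ₗ[K] K :=
  kb fun X Y => Qn.D K (X⁻¹ * Y)

/-- A numbering of `Qn ι`. -/
noncomputable def enc (ι : Type*) [Fintype ι] [DecidableEq ι] : Qn ι → ℕ :=
  fun X => (Fintype.equivFin ((ι → ZMod 2) × (ι → ι → ZMod 2)) (X.e, X.T) : ℕ)

theorem enc_injective (ι : Type*) [Fintype ι] [DecidableEq ι] : Function.Injective (enc ι) := by
  intro X Y h
  have h1 := (Fintype.equivFin ((ι → ZMod 2) × (ι → ι → ZMod 2))).injective (Fin.ext h)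
  exact Qn.ext (congrArg Prod.fst h1) (congrArg Prod.snd h1)

/-- The triangular half of the polar form. -/
noncomputable def halfB (K ι : Type*) [Field K] [Fintype ι] [DecidableEq ι] :
    MQ K ι →ₗ[K] MQ K ι →ₗ[K] K :=
  kb fun X Y => if enc ι X < enc ι Y then Qn.D K (X⁻¹ * Y) else 0

/-- The quadratic form. -/
noncomputable def QQ (K ι : Type*) [Field K] [Fintype ι] [DecidableEq ι] (x : MQ K ι) : K :=
  halfB K ι x x

variable [CharP K 2] [Nonempty ι]

theorem halfB_add_flip : halfB K ι + (halfB K ι).flip = beta K ι := by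
  apply bil_ext
  intro X Y
  rw [LinearMap.add_apply, LinearMap.add_apply, LinearMap.flip_apply]
  unfold halfB beta
  rw [kb_single, kb_single, kb_single]
  simp only [one_mul]
  rcases lt_trichotomy (enc ι X) (enc ι Y) with h | h | h
  · rw [if_pos h, if_neg (not_lt.2 h.le), add_zero]
  · have hXY := enc_injective ι h
    subst hXY
    rw [if_neg (lt_irrefl _), inv_mul_cancel, Qn.D_one, add_zero]
  · rw [if_neg (not_lt.2 h.le), if_pos h, zero_add, ← Qn.D_inv K (Y⁻¹ * X)]
    congr 1
    group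

theorem QQ_add (x y : MQ K ι) : QQ K ι (x + y) = QQ K ι x + QQ K ι y + beta K ι x y := by
  rw [← halfB_add_flip]
  unfold QQ
  simp only [map_add, LinearMap.add_apply, LinearMap.flip_apply]
  ring

omit [CharP K 2] [Nonempty ι] in
theorem QQ_smul (c : K) (x : MQ K ι) : QQ K ι (c • x) = c ^ 2 * QQ K ι x := by
  unfold QQ
  simp only [map_smul, LinearMap.smul_apply, smul_eq_mul]
  ring

omit [CharP K 2] [Nonempty ι] in
theorem QQ_single (X : Qn ι) (c : K) : QQ K ι (Finsupp.single X c) = 0 := by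
  unfold QQ halfB
  rw [kb_single, if_neg (lt_irrefl _), mul_zero, mul_zero]

omit [CharP K 2] [Nonempty ι] in
theorem QQ_zero : QQ K ι 0 = 0 := by
  unfold QQ
  rw [map_zero]

end Forms

section Functionals

variable {K : Type*} [Field K] {ι : Type*}

/-- The linear functional on `K[Ξ]` with values `f` on `Ξ`. -/
noncomputable def cf (f : Xi ι → K) : RX K ι →ₗ[K] K where
  toFun x := x.coeff.sum fun z c => c * f z
  map_add' x y := by
    rw [MonoidAlgebra.coeff_add]
    exact Finsupp.sum_add_index' (by simp) (by intro a b c; ring)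
  map_smul' c x := by
    rw [MonoidAlgebra.coeff_smul, RingHom.id_apply, smul_eq_mul, Finsupp.mul_sum,
      Finsupp.sum_smul_index' (by simp)]
    simp [mul_assoc]

theorem cf_single (f : Xi ι → K) (z : Xi ι) (c : K) :
    cf f (MonoidAlgebra.single z c) = c * f z := by
  change (MonoidAlgebra.single z c).coeff.sum (fun z c => c * f z) = c * f z
  exact Finsupp.sum_single_index (by simp)

variable [Fintype ι]

/-- The bilinear map `(x, y) ↦ F ((π^{(j₁)}_χ x)(k) (π^{(j₂)}_χ y)(k))`. -/
noncomputable def pb (χ : ι → ZMod 2) (j₁ j₂ k : ZMod 2) (F : RX K ι →ₗ[K] K) :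
    MQ K ι →ₗ[K] MQ K ι →ₗ[K] K :=
  LinearMap.mk₂ K (fun x y => F (piL χ j₁ x k * piL χ j₂ y k))
    (by intro x x' y; rw [map_add, Pi.add_apply, add_mul, map_add])
    (by intro c x y; rw [map_smul, Pi.smul_apply, smul_mul_assoc, map_smul])
    (by intro x y y'; rw [map_add, Pi.add_apply, mul_add, map_add])
    (by intro c x y; rw [map_smul, Pi.smul_apply, mul_smul_comm, map_smul])

theorem pb_apply (χ : ι → ZMod 2) (j₁ j₂ k : ZMod 2) (F : RX K ι →ₗ[K] K) (x y : MQ K ι) :
    pb χ j₁ j₂ k F x y = F (piL χ j₁ x k * piL χ j₂ y k) := rfl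

theorem pb_single (χ : ι → ZMod 2) (j₁ j₂ k : ZMod 2) (f : Xi ι → K) (X Y : Qn ι) :
    pb χ j₁ j₂ k (cf f) (Finsupp.single X 1) (Finsupp.single Y 1) =
      if k + χ ⬝ᵥ X.e = j₁ ∧ k + χ ⬝ᵥ Y.e = j₂ then
        f (Multiplicative.ofAdd (X.e + Y.e, (Matrix.vecMul χ X.T + k • X.e) +
          (Matrix.vecMul χ Y.T + k • Y.e))) else 0 := by
  rw [pb_apply, piL_single_apply, piL_single_apply]
  by_cases h1 : k + χ ⬝ᵥ X.e = j₁
  · by_cases h2 : k + χ ⬝ᵥ Y.e = j₂
    · rw [if_pos h1, if_pos h2, if_pos ⟨h1, h2⟩, MonoidAlgebra.single_mul_single, mul_one,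
        cf_single, one_mul]
      rfl
    · rw [if_neg h2, mul_zero, map_zero, if_neg (fun h => h2 h.2)]
  · rw [if_neg h1, zero_mul, map_zero, if_neg (fun h => h1 h.1)]

/-- The coefficient at `(0, 𝟏)`. -/
noncomputable def c1 (K ι : Type*) [Field K] [Fintype ι] [DecidableEq ι] : Xi ι → K :=
  fun z => if z.toAdd.1 = 0 ∧ z.toAdd.2 = (fun _ => 1) then 1 else 0

variable [DecidableEq ι]

theorem zmod2_cases (a : ZMod 2) : a = 0 ∨ a = 1 := by
  revert a; decide

/-- The polar form as a sum over `χ`. -/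
theorem beta_eq : beta K ι = ∑ χ : ι → ZMod 2, ∑ k : ZMod 2, pb χ 0 0 k (cf (c1 K ι)) := by
  apply bil_ext
  intro X Y
  simp only [LinearMap.sum_apply]
  unfold beta
  rw [kb_single, one_mul, one_mul]
  simp only [pb_single]
  unfold Qn.D cnt
  have he : (X⁻¹ * Y).e = X.e + Y.e := by
    rw [Qn.mul_e, Qn.inv_e']
  rw [he]
  by_cases h : X.e + Y.e = 0
  · rw [if_pos h]
    refine Finset.sum_congr rfl fun χ _ => ?_
    have hY : Y.e = X.e := by
      have : X.e + (X.e + Y.e) = X.e + 0 := by rw [h]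
      rwa [← add_assoc, add_self_fun, zero_add, add_zero] at this
    have hT : Matrix.vecMul χ (X⁻¹ * Y).T = Matrix.vecMul χ X.T + Matrix.vecMul χ Y.T := by
      rw [← Matrix.vecMul_add]
      congr 1
      ext i j
      simp only [Qn.mul_T, Qn.inv_T, Qn.inv_e, Qn.neg_eq, Qn.neg_eq_mat, hY, Matrix.add_apply]
      have h3 : vecMulVec X.e X.e i j + vecMulVec X.e X.e i j = 0 := CharTwo.add_self_eq_zero _
      linear_combination h3
    have hk : ∀ k : ZMod 2, (Matrix.vecMul χ X.T + k • X.e) + (Matrix.vecMul χ Y.T + k • Y.e) =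
        Matrix.vecMul χ X.T + Matrix.vecMul χ Y.T := by
      intro k
      rw [hY]
      have h4 : k • X.e + k • X.e = 0 := add_self_fun _
      calc _ = Matrix.vecMul χ X.T + Matrix.vecMul χ Y.T + (k • X.e + k • X.e) := by abel
        _ = _ := by rw [h4, add_zero]
    have h5 : ∀ k : ZMod 2, (if k + χ ⬝ᵥ X.e = 0 ∧ k + χ ⬝ᵥ Y.e = 0 then
        c1 K ι (Multiplicative.ofAdd (X.e + Y.e, (Matrix.vecMul χ X.T + k • X.e) +
          (Matrix.vecMul χ Y.T + k • Y.e))) else 0) =
        if k = χ ⬝ᵥ X.e then (if Matrix.vecMul χ (X⁻¹ * Y).T = (fun _ => 1) then 1 else 0)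
          else 0 := by
      intro k
      have h6 : (k + χ ⬝ᵥ X.e = 0) ↔ k = χ ⬝ᵥ X.e := by
        generalize χ ⬝ᵥ X.e = a
        revert k a; decide
      have h7 : X.e + X.e = 0 := add_self_fun _
      rw [hk k]
      simp only [hT, hY, and_self, h6]
      unfold c1
      simp [h7]
    rw [Finset.sum_congr rfl fun k _ => h5 k, Finset.sum_ite_eq' Finset.univ (χ ⬝ᵥ X.e)]
    simp
  · rw [if_neg h]
    symm
    refine Finset.sum_eq_zero fun χ _ => Finset.sum_eq_zero fun k _ => ?_
    have : c1 K ι (Multiplicative.ofAdd (X.e + Y.e, (Matrix.vecMul χ X.T + k • X.e) +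
          (Matrix.vecMul χ Y.T + k • Y.e))) = 0 := by
      unfold c1
      exact if_neg fun h2 => h h2.1
    rw [this, ite_self]

end Functionals

end Pool.Agent.MP_d8349b_al
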