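import Pool.Agent.Work.MP_d8349b_al.Traj

/-!
MP_d8349b_al: the quadratic form along orbits starting from a single source.
-/

namespace Pool.Agent.MP_d8349b_al

open Matrix

set_option linter.unusedSectionVars false

section JJ

variable {ι I : Type*} [Fintype I] [DecidableEq I]

/-- The matrix of the vectors `e`. -/
def psi (q : I → Qn ι) : Matrix ι I (ZMod 2) := Matrix.of fun a i => (q i).e a

/-- The linear combination of the matrices `T`. -/
def tau (q : I → Qn ι) (κ : I → ZMod 2) : Matrix ι ι (ZMod 2) := ∑ i, κ i • (q i).T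

theorem tau_add (q : I → Qn ι) (κ κ' : I → ZMod 2) : tau q (κ + κ') = tau q κ + tau q κ' := by
  unfold tau
  rw [← Finset.sum_add_distrib]
  refine Finset.sum_congr rfl fun i _ => ?_
  rw [Pi.add_apply, add_smul]

theorem psi_vecMulVec (q : I → Qn ι) (x y : I → ZMod 2) :
    psi q * vecMulVec x y * (psi q)ᵀ = vecMulVec (psi q *ᵥ x) (psi q *ᵥ y) := by
  rw [Matrix.mul_vecMulVec, Matrix.vecMulVec_mul, Matrix.vecMul_transpose]

/-- The homomorphism `Qn I → Qn ι` sending the generators to the given elements. -/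
def JJ (q : I → Qn ι) : Qn I →* Qn ι where
  toFun g := ⟨psi q *ᵥ g.e, tau q g.e + psi q * g.T * (psi q)ᵀ⟩
  map_one' := by
    refine Qn.ext ?_ ?_
    · change psi q *ᵥ (0 : I → ZMod 2) = 0
      simp
    · change tau q 0 + psi q * (0 : Matrix I I (ZMod 2)) * (psi q)ᵀ = 0
      unfold tau
      simp
  map_mul' a b := by
    refine Qn.ext ?_ ?_
    · change psi q *ᵥ (a.e + b.e) = psi q *ᵥ a.e + psi q *ᵥ b.e
      rw [Matrix.mulVec_add]
    · change tau q (a.e + b.e) + psi q * (a.T + b.T + vecMulVec a.e b.e) * (psi q)ᵀ =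
        (tau q a.e + psi q * a.T * (psi q)ᵀ) + (tau q b.e + psi q * b.T * (psi q)ᵀ) +
          vecMulVec (psi q *ᵥ a.e) (psi q *ᵥ b.e)
      rw [tau_add, Matrix.mul_add, Matrix.mul_add, Matrix.add_mul, Matrix.add_mul,
        psi_vecMulVec]
      abel

theorem JJ_gen (q : I → Qn ι) (i : I) : JJ q ⟨Pi.single i 1, 0⟩ = q i := by
  refine Qn.ext ?_ ?_
  · change psi q *ᵥ (Pi.single i 1 : I → ZMod 2) = (q i).e
    rw [Matrix.mulVec_single_one]
    rfl
  · change tau q (Pi.single i 1) + psi q * (0 : Matrix I I (ZMod 2)) * (psi q)ᵀ = (q i).T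
    unfold tau
    rw [Matrix.mul_zero, Matrix.zero_mul, add_zero, Finset.sum_eq_single i]
    · simp
    · intro b _ hb
      simp [hb]
    · simp

end JJ

section

variable {K : Type*} [Field K] [CharP K 2] {ι : Type*} [Fintype ι] [DecidableEq ι] {I : Type*}
  [Fintype I] [DecidableEq I]

/-- A vector with `χ₁ ⬝ κ = 1`. -/
theorem exists_chi1 (κ : I → ZMod 2) (h : κ ≠ 0) : ∃ χ₁ : I → ZMod 2, χ₁ ⬝ᵥ κ = 1 := by
  obtain ⟨i, hi⟩ := Function.ne_iff.1 h
  refine ⟨Pi.single i 1, ?_⟩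
  rw [single_one_dotProduct]
  rcases zmod2_cases (κ i) with h1 | h1
  · exact absurd h1 hi
  · exact h1

open Classical in
/-- A chosen vector with `χ₁ ⬝ κ = 1` (for `κ ≠ 0`). -/
noncomputable def chi1 (κ : I → ZMod 2) : I → ZMod 2 :=
  if h : κ ≠ 0 then (exists_chi1 κ h).choose else 0

theorem chi1_spec (κ : I → ZMod 2) (h : κ ≠ 0) : chi1 κ ⬝ᵥ κ = 1 := by
  unfold chi1
  rw [dif_pos h]
  exact (exists_chi1 κ h).choose_spec

variable (q : I → Qn ι)

/-- The functional `f_{κ, χ}` on `Ξ`. -/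
noncomputable def ff (K : Type*) [Field K] (q : I → Qn ι) (κ : I → ZMod 2) (χ : ι → ZMod 2) :
    Xi I → K :=
  fun z => if z.toAdd.1 = κ ∧ Matrix.vecMul χ (tau q κ) + psi q *ᵥ z.toAdd.2 = (fun _ => 1)
    then 1 else 0

/-- The vector `χ'`. -/
noncomputable def chi' (κ : I → ZMod 2) (χ : ι → ZMod 2) : I → ZMod 2 :=
  Matrix.vecMul χ (psi q) + chi1 κ

/-- The set of relevant `κ`. -/
def SS : Finset (I → ZMod 2) := Finset.univ.filter fun κ => κ ≠ 0 ∧ psi q *ᵥ κ = 0

theorem chi'_spec {κ : I → ZMod 2} (h : κ ∈ SS q) (χ : ι → ZMod 2) : chi' q κ χ ⬝ᵥ κ = 1 := by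
  obtain ⟨h1, h2⟩ := (Finset.mem_filter.1 h).2
  unfold chi'
  rw [add_dotProduct, chi1_spec κ h1, ← Matrix.dotProduct_mulVec, h2, dotProduct_zero, zero_add]

/-- The bilinear form on the right hand side. -/
noncomputable def rhsB (K : Type*) [Field K] (q : I → Qn ι) : MQ K I →ₗ[K] MQ K I →ₗ[K] K :=
  ∑ κ ∈ SS q, ∑ χ : ι → ZMod 2, pb (chi' q κ χ) 0 1 0 (cf (ff K q κ χ))

theorem kernel_identity (hc : Fintype.card I < Fintype.card ι) (Y₁ Y₂ : Qn I) :
    Qn.D K (JJ q (Y₁⁻¹ * Y₂)) =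
      rhsB K q (Finsupp.single Y₁ 1) (Finsupp.single Y₂ 1) +
        rhsB K q (Finsupp.single Y₂ 1) (Finsupp.single Y₁ 1) := by
  have hge : (Y₁⁻¹ * Y₂).e = Y₁.e + Y₂.e := by rw [Qn.mul_e, Qn.inv_e']
  have hgT : (Y₁⁻¹ * Y₂).T = (Y₁.T + Y₂.T) + vecMulVec Y₁.e (Y₁.e + Y₂.e) := by
    ext i j
    simp only [Qn.mul_T, Qn.inv_T, Qn.inv_e, Qn.neg_eq, Qn.neg_eq_mat, Matrix.add_apply,
      vecMulVec_apply, Pi.add_apply]
    ring
  set κ₀ := Y₁.e + Y₂.e with hκ₀
  unfold rhsB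
  simp only [LinearMap.sum_apply]
  simp only [pb_single]
  have hval : ∀ (κ : I → ZMod 2) (χ : ι → ZMod 2) (A B : Qn I),
      A.e + B.e = κ₀ → A.T + B.T = Y₁.T + Y₂.T →
      ff K q κ χ (Multiplicative.ofAdd (A.e + B.e, (Matrix.vecMul (chi' q κ χ) A.T +
        (0 : ZMod 2) • A.e) + (Matrix.vecMul (chi' q κ χ) B.T + (0 : ZMod 2) • B.e))) =
      if κ₀ = κ ∧ Matrix.vecMul χ (tau q κ) +
        psi q *ᵥ (Matrix.vecMul (chi' q κ χ) (Y₁.T + Y₂.T)) = (fun _ => 1) then 1 else 0 := by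
    intro κ χ A B h1 h2
    unfold ff
    rw [zero_smul, zero_smul, add_zero, add_zero, ← Matrix.vecMul_add, h1, h2]
    rfl
  have h12 : Y₂.e + Y₁.e = κ₀ := by rw [hκ₀, add_comm]
  have h12T : Y₂.T + Y₁.T = Y₁.T + Y₂.T := add_comm _ _
  simp only [hval _ _ Y₁ Y₂ rfl rfl, hval _ _ Y₂ Y₁ h12 h12T]
  unfold Qn.D
  have he : (JJ q (Y₁⁻¹ * Y₂)).e = psi q *ᵥ κ₀ := by
    change psi q *ᵥ (Y₁⁻¹ * Y₂).e = _
    rw [hge]
  have hT : (JJ q (Y₁⁻¹ * Y₂)).T = tau q κ₀ + (psi q * (Y₁.T + Y₂.T) * (psi q)ᵀ +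
      vecMulVec (psi q *ᵥ Y₁.e) (psi q *ᵥ κ₀)) := by
    change tau q (Y₁⁻¹ * Y₂).e + psi q * (Y₁⁻¹ * Y₂).T * (psi q)ᵀ = _
    rw [hge, hgT, Matrix.mul_add, Matrix.add_mul, psi_vecMulVec]
  rw [he]
  by_cases h1 : psi q *ᵥ κ₀ = 0
  · rw [if_pos h1, hT, h1, Matrix.vecMulVec_zero, add_zero]
    by_cases h2 : κ₀ = 0
    · -- low rank
      have h3 : ∀ κ ∈ SS q, κ₀ ≠ κ := by
        intro κ hκ h4
        exact (Finset.mem_filter.1 hκ).2.1 (h4 ▸ h2)
      have h5 : ∀ κ ∈ SS q, ∀ (χ : ι → ZMod 2), (if κ₀ = κ ∧ Matrix.vecMul χ (tau q κ) +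
        psi q *ᵥ (Matrix.vecMul (chi' q κ χ) (Y₁.T + Y₂.T)) = (fun _ => 1) then (1 : K)
          else 0) = 0 := fun κ hκ χ => if_neg fun h => h3 κ hκ h.1
      rw [Finset.sum_eq_zero, Finset.sum_eq_zero, add_zero]
      · obtain ⟨z, hz1, hz2⟩ := exists_vecMul_eq_zero hc (psi q)
        refine cnt_eq_zero hz1 ?_ _
        rw [h2]
        have h6 : tau q 0 = 0 := by
          unfold tau
          simp
        rw [h6, zero_add, ← Matrix.vecMul_vecMul, ← Matrix.vecMul_vecMul, hz2,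
          Matrix.zero_vecMul, Matrix.zero_vecMul]
      · intro κ hκ
        refine Finset.sum_eq_zero fun χ _ => ?_
        rw [h5 κ hκ, ite_self]
      · intro κ hκ
        refine Finset.sum_eq_zero fun χ _ => ?_
        rw [h5 κ hκ, ite_self]
    · -- main case
      have hS : κ₀ ∈ SS q := Finset.mem_filter.2 ⟨Finset.mem_univ _, h2, h1⟩
      rw [← Finset.sum_add_distrib, Finset.sum_eq_single_of_mem κ₀ hS]
      · rw [← Finset.sum_add_distrib, cnt_eq_cnt _ _ ((fun _ => 1) +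
          psi q *ᵥ (Matrix.vecMul (chi1 κ₀) (Y₁.T + Y₂.T)))]
        unfold cnt
        refine Finset.sum_congr rfl fun χ _ => ?_
        have h3 := chi'_spec q hS χ
        have h4 : chi' q κ₀ χ ⬝ᵥ Y₁.e + chi' q κ₀ χ ⬝ᵥ Y₂.e = 1 := by
          rw [← dotProduct_add]
          exact h3
        have h5 : (Matrix.vecMul χ (tau q κ₀ + psi q * (Y₁.T + Y₂.T) * (psi q)ᵀ) =
            (fun _ => 1) + psi q *ᵥ (Matrix.vecMul (chi1 κ₀) (Y₁.T + Y₂.T))) ↔
            (κ₀ = κ₀ ∧ Matrix.vecMul χ (tau q κ₀) +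
              psi q *ᵥ (Matrix.vecMul (chi' q κ₀ χ) (Y₁.T + Y₂.T)) = (fun _ => 1)) := by
          have h6 : Matrix.vecMul χ (tau q κ₀ + psi q * (Y₁.T + Y₂.T) * (psi q)ᵀ) =
              Matrix.vecMul χ (tau q κ₀) +
              psi q *ᵥ (Matrix.vecMul (Matrix.vecMul χ (psi q)) (Y₁.T + Y₂.T)) := by
            rw [Matrix.vecMul_add, ← Matrix.vecMul_vecMul, ← Matrix.vecMul_vecMul,
              Matrix.vecMul_transpose]
          have h7 : psi q *ᵥ (Matrix.vecMul (chi' q κ₀ χ) (Y₁.T + Y₂.T)) =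
              psi q *ᵥ (Matrix.vecMul (Matrix.vecMul χ (psi q)) (Y₁.T + Y₂.T)) +
              psi q *ᵥ (Matrix.vecMul (chi1 κ₀) (Y₁.T + Y₂.T)) := by
            unfold chi'
            rw [Matrix.add_vecMul, Matrix.mulVec_add]
          rw [h6, h7]
          generalize Matrix.vecMul χ (tau q κ₀) = a
          generalize psi q *ᵥ (Matrix.vecMul (Matrix.vecMul χ (psi q)) (Y₁.T + Y₂.T)) = b
          generalize psi q *ᵥ (Matrix.vecMul (chi1 κ₀) (Y₁.T + Y₂.T)) = c
          have hcc : c + c = 0 := add_self_fun c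
          constructor
          · intro h
            refine ⟨rfl, ?_⟩
            rw [← add_assoc, h, add_assoc, hcc, add_zero]
          · rintro ⟨_, h⟩
            rw [← h, add_assoc, add_assoc, hcc, add_zero]
        rw [if_congr h5 rfl rfl]
        rcases zmod2_cases (chi' q κ₀ χ ⬝ᵥ Y₁.e) with h8 | h8
        · have h9 : chi' q κ₀ χ ⬝ᵥ Y₂.e = 1 := by
            rw [h8, zero_add] at h4
            exact h4
          rw [h8, h9]
          simp
        · have h9 : chi' q κ₀ χ ⬝ᵥ Y₂.e = 0 := by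
            rw [h8] at h4
            simpa using h4
          rw [h8, h9]
          simp
      · intro κ _ hκ
        have h5 : ∀ (χ : ι → ZMod 2), (if κ₀ = κ ∧ Matrix.vecMul χ (tau q κ) +
          psi q *ᵥ (Matrix.vecMul (chi' q κ χ) (Y₁.T + Y₂.T)) = (fun _ => 1) then (1 : K)
            else 0) = 0 := fun χ => if_neg fun h => hκ h.1.symm
        rw [Finset.sum_eq_zero, Finset.sum_eq_zero, add_zero]
        · intro χ _
          rw [h5, ite_self]
        · intro χ _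
          rw [h5, ite_self]
  · rw [if_neg h1]
    have h3 : ∀ κ ∈ SS q, κ₀ ≠ κ := by
      intro κ hκ h4
      exact h1 (h4 ▸ (Finset.mem_filter.1 hκ).2.2)
    have h5 : ∀ κ ∈ SS q, ∀ (χ : ι → ZMod 2), (if κ₀ = κ ∧ Matrix.vecMul χ (tau q κ) +
      psi q *ᵥ (Matrix.vecMul (chi' q κ χ) (Y₁.T + Y₂.T)) = (fun _ => 1) then (1 : K)
        else 0) = 0 := fun κ hκ χ => if_neg fun h => h3 κ hκ h.1
    rw [Finset.sum_eq_zero, Finset.sum_eq_zero, add_zero]
    · intro κ hκ
      refine Finset.sum_eq_zero fun χ _ => ?_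
      rw [h5 κ hκ, ite_self]
    · intro κ hκ
      refine Finset.sum_eq_zero fun χ _ => ?_
      rw [h5 κ hκ, ite_self]

/-- The linear map `[Y] ↦ c [J(Y) X₀]`. -/
noncomputable def LL (c : K) (X₀ : Qn ι) : MQ K I →ₗ[K] MQ K ι :=
  c • Finsupp.lmapDomain K K (fun Y => JJ q Y * X₀)

theorem LL_single (c : K) (X₀ : Qn ι) (Y : Qn I) (d : K) :
    LL q c X₀ (Finsupp.single Y d) = Finsupp.single (JJ q Y * X₀) (c * d) := by
  unfold LL
  rw [LinearMap.smul_apply, Finsupp.lmapDomain_apply, Finsupp.mapDomain_single,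
    Finsupp.smul_single, smul_eq_mul]

theorem rhsB_single_self (Y : Qn I) (c : K) :
    rhsB K q (Finsupp.single Y c) (Finsupp.single Y c) = 0 := by
  have h1 : (Finsupp.single Y c : MQ K I) = c • Finsupp.single Y 1 := by
    rw [Finsupp.smul_single, smul_eq_mul, mul_one]
  rw [h1]
  simp only [map_smul, LinearMap.smul_apply]
  unfold rhsB
  simp only [LinearMap.sum_apply]
  simp only [pb_single]
  rw [Finset.sum_eq_zero, smul_zero, smul_zero]
  intro κ _
  refine Finset.sum_eq_zero fun χ _ => if_neg ?_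
  rintro ⟨h2, h3⟩
  rw [h2] at h3
  exact absurd h3 (by decide)

/-- The quadratic form along `LL`. -/
theorem QQ_LL [Nonempty ι] (hc : Fintype.card I < Fintype.card ι) (c : K) (X₀ : Qn ι)
    (y : MQ K I) : QQ K ι (LL q c X₀ y) = c ^ 2 * rhsB K q y y := by
  have hbil : ∀ y y' : MQ K I, beta K ι (LL q c X₀ y) (LL q c X₀ y') =
      c ^ 2 * (rhsB K q y y' + rhsB K q y' y) := by
    intro y y'
    have h : ((beta K ι).compl₁₂ (LL q c X₀) (LL q c X₀)) =
        c ^ 2 • (rhsB K q + (rhsB K q).flip) := by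
      apply bil_ext
      intro Y₁ Y₂
      rw [LinearMap.compl₁₂_apply, LL_single, LL_single, LinearMap.smul_apply,
        LinearMap.smul_apply, LinearMap.add_apply, LinearMap.add_apply, LinearMap.flip_apply,
        ← kernel_identity q hc, smul_eq_mul]
      unfold beta
      rw [kb_single, _root_.mul_inv_rev]
      have h2 : X₀⁻¹ * (JJ q Y₁)⁻¹ * (JJ q Y₂ * X₀) = X₀⁻¹ * (JJ q (Y₁⁻¹ * Y₂)) * X₀ := by
        rw [map_mul, map_inv]
        group
      rw [h2, Qn.D_conj]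
      ring
    have h3 := congrArg (fun B => B y y') h
    simpa [mul_add] using h3
  refine quad_ext (fun y => QQ K ι (LL q c X₀ y)) (fun y => c ^ 2 * rhsB K q y y)
    (fun y y' => beta K ι (LL q c X₀ y) (LL q c X₀ y')) ?_ ?_ ?_ ?_ y
  · simp [QQ_zero]
  · intro x y
    simp only [map_add]
    exact QQ_add _ _
  · intro x y
    simp only [hbil, map_add, LinearMap.add_apply]
    ring
  · intro X d
    simp only [LL_single, QQ_single, rhsB_single_self, mul_zero]

/-- The single source case. -/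
theorem star2 [Nonempty ι] (hc : Fintype.card I < Fintype.card ι) (t : Kˣ)
    (ht : Function.Injective (fun n : ℤ => t ^ n))
    (u : MonoidAlgebra K (FreeGroup I))
    (hu : ∀ (φ : FreeGroup I →* GG K) (p : WW K) (k : ZMod 2), orb u φ p k = 0)
    (lam : I → Qn ι × Kˣ) (i : I) (X : Qn ι) (c : K) :
    Psi u lam (Pi.single i (Finsupp.single X c)) 0 = 0 := by
  let q' : I → Qn ι := fun j => (lam j).1
  have hcomm : ∀ (a : Qn I × Kˣ) (m : MQ K I), (LL q' c X) (a • m) =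
      ((JJ q').prodMap (MonoidHom.id Kˣ) a) • (LL q' c X m) := by
    intro a m
    induction m using Finsupp.induction_linear with
    | zero => simp
    | add x y hx hy => rw [smul_add, map_add, hx, hy, map_add, smul_add]
    | single Y d =>
      rw [MQ_smul_single, LL_single, LL_single, MQ_smul_single]
      congr 1
      · change JJ q' (a.1 * Y) * X = JJ q' a.1 * (JJ q' Y * X)
        rw [map_mul, mul_assoc]
      · change c * ((a.2 : K) * d) = (a.2 : K) * (c * d)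
        ring
  let lam' : I → Qn I × Kˣ := fun j => (⟨Pi.single j 1, 0⟩, (lam j).2)
  let m' : I → MQ K I := Pi.single i (Finsupp.single 1 1)
  have hφ : (Aff.map ((JJ q').prodMap (MonoidHom.id Kˣ)) (LL q' c X).toAddMonoidHom hcomm).comp
      (ahom lam' m') = ahom lam (Pi.single i (Finsupp.single X c)) := by
    apply FreeGroup.ext_hom
    intro j
    rw [MonoidHom.comp_apply]
    unfold ahom
    rw [FreeGroup.lift_apply_of, FreeGroup.lift_apply_of]
    refine Aff.ext ?_ ?_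
    · refine Prod.ext ?_ rfl
      exact JJ_gen q' j
    · change LL q' c X (m' j) = _
      by_cases hj : j = i
      · subst hj
        simp only [m', Pi.single_eq_same]
        rw [LL_single, map_one, one_mul, mul_one]
      · simp only [m', Pi.single_eq_of_ne hj, map_zero]
  have horb : ∀ w : FreeGroup I, (ahom lam (Pi.single i (Finsupp.single X c)) w)⁻¹ • (0 : MQ K ι)
      = LL q' c X ((ahom lam' m' w)⁻¹ • (0 : MQ K I)) := by
    intro w
    have h1 := Aff.map_smul ((JJ q').prodMap (MonoidHom.id Kˣ)) (LL q' c X).toAddMonoidHom hcomm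
      (ahom lam' m' w)⁻¹ 0
    have h2 : (LL q' c X).toAddMonoidHom ((ahom lam' m' w)⁻¹ • (0 : MQ K I)) =
      LL q' c X ((ahom lam' m' w)⁻¹ • (0 : MQ K I)) := rfl
    rw [← h2, h1, map_inv, map_zero, ← hφ]
    rfl
  unfold Psi
  have h3 : (fun w => QQ K ι ((ahom lam (Pi.single i (Finsupp.single X c)) w)⁻¹ • (0 : MQ K ι))) =
      fun w => ∑ κ ∈ SS q', ∑ χ : ι → ZMod 2, c ^ 2 • cf (ff K q' κ χ)
        (piL (chi' q' κ χ) 0 ((ahom lam' m' w)⁻¹ • (0 : MQ K I)) 0 *
          piL (chi' q' κ χ) 1 ((ahom lam' m' w)⁻¹ • (0 : MQ K I)) 0) := by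
    funext w
    rw [horb, QQ_LL q' hc]
    unfold rhsB
    simp only [LinearMap.sum_apply, pb_apply, Finset.mul_sum, smul_eq_mul]
  rw [h3, pair_sum]
  refine Finset.sum_eq_zero fun κ _ => ?_
  rw [pair_sum]
  refine Finset.sum_eq_zero fun χ _ => ?_
  rw [pair_smul]
  have h4 := cprime t ht u hu (chi' q' κ χ) 0 1 0 (ahom lam' (fun j => (m' j, m' j))) (0, 0)
  have h5 := congrArg (cf (ff K q' κ χ)) h4
  rw [pair_map, map_zero] at h5
  have h6 : ∀ w : FreeGroup I, (ahom lam' (fun j => (m' j, m' j)) w)⁻¹ •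
      ((0, 0) : MQ K I × MQ K I) =
      ((ahom lam' m' w)⁻¹ • (0 : MQ K I), (ahom lam' m' w)⁻¹ • (0 : MQ K I)) := by
    intro w
    exact (ahom_map ((AddMonoidHom.id (MQ K I)).prod (AddMonoidHom.id (MQ K I)))
      (fun _ _ => rfl) lam' m' w 0).symm
  simp only [h6] at h5
  rw [h5, smul_zero]

/-- The main theorem: the quadratic form is killed by all identities in few variables. -/
theorem main [Nonempty ι] (hc : Fintype.card I < Fintype.card ι) (t : Kˣ)
    (ht : Function.Injective (fun n : ℤ => t ^ n))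
    (u : MonoidAlgebra K (FreeGroup I))
    (hu : ∀ (φ : FreeGroup I →* GG K) (p : WW K) (k : ZMod 2), orb u φ p k = 0)
    (φ : FreeGroup I →* Aff (Qn ι × Kˣ) (MQ K ι)) (p : MQ K ι) :
    pair u (fun w => QQ K ι ((φ w)⁻¹ • p)) = 0 := by
  rw [eq_ahom φ]
  exact Psi_eq_zero t ht u hu _ (fun i X c => star2 hc t ht u hu _ i X c) _ p

end

end Pool.Agent.MP_d8349b_al
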