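import Pool.Agent.Work.MP_d8349b_al.Quadr

/-!
MP_d8349b_al: orbits of affine homomorphisms of free groups.
-/

namespace Pool.Agent.MP_d8349b_al

section Hom

variable {A M M' I : Type*} [Group A] [AddCommGroup M] [DistribMulAction A M] [AddCommGroup M']
  [DistribMulAction A M']

/-- The homomorphism of the free group with given linear parts and translation parts. -/
def ahom (lam : I → A) (m : I → M) : FreeGroup I →* Aff A M :=
  FreeGroup.lift fun i => ⟨lam i, m i⟩

theorem ahom_map (h : M →+ M') (hc : ∀ (a : A) (m : M), h (a • m) = a • h m) (lam : I → A)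
    (m : I → M) (w : FreeGroup I) (p : M) :
    h ((ahom lam m w)⁻¹ • p) = (ahom lam (fun i => h (m i)) w)⁻¹ • h p := by
  have h1 : (Aff.map (MonoidHom.id A) h hc).comp (ahom lam m) =
      ahom lam (fun i => h (m i)) := by
    apply FreeGroup.ext_hom
    intro i
    rw [MonoidHom.comp_apply]
    unfold ahom
    rw [FreeGroup.lift_apply_of, FreeGroup.lift_apply_of]
    rfl
  rw [Aff.map_smul (MonoidHom.id A) h hc, map_inv, ← h1]
  rfl

theorem ahom_add (lam : I → A) (m m' : I → M) (w : FreeGroup I) (p p' : M) :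
    (ahom lam (m + m') w)⁻¹ • (p + p') = (ahom lam m w)⁻¹ • p + (ahom lam m' w)⁻¹ • p' := by
  have h1 := ahom_map (AddMonoidHom.fst M M) (fun _ _ => rfl) lam (fun i => (m i, m' i)) w (p, p')
  have h2 := ahom_map (AddMonoidHom.snd M M) (fun _ _ => rfl) lam (fun i => (m i, m' i)) w (p, p')
  have h3 := ahom_map (AddMonoidHom.fst M M + AddMonoidHom.snd M M)
    (fun a m => (smul_add a m.1 m.2).symm) lam (fun i => (m i, m' i)) w (p, p')
  have h4 : (ahom lam m w)⁻¹ • p = ((ahom lam (fun i => (m i, m' i)) w)⁻¹ • (p, p')).1 :=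
    h1.symm
  have h5 : (ahom lam m' w)⁻¹ • p' = ((ahom lam (fun i => (m i, m' i)) w)⁻¹ • (p, p')).2 :=
    h2.symm
  rw [h4, h5]
  exact h3.symm

theorem ahom_zero_tr (lam : I → A) (w : FreeGroup I) :
    ahom lam (fun _ => (0 : M)) w = ⟨FreeGroup.lift lam w, 0⟩ := by
  let f : A →* Aff A M :=
    { toFun := fun a => ⟨a, 0⟩
      map_one' := rfl
      map_mul' := fun a b => by ext1 <;> simp }
  have h1 : ahom lam (fun _ => (0 : M)) = f.comp (FreeGroup.lift lam) := by
    apply FreeGroup.ext_hom
    intro i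
    rw [MonoidHom.comp_apply]
    unfold ahom
    rw [FreeGroup.lift_apply_of, FreeGroup.lift_apply_of]
    rfl
  rw [h1]
  rfl

theorem eq_ahom (φ : FreeGroup I →* Aff A M) :
    φ = ahom (fun i => (φ (FreeGroup.of i)).lin) (fun i => (φ (FreeGroup.of i)).tr) := by
  apply FreeGroup.ext_hom
  intro i
  unfold ahom
  rw [FreeGroup.lift_apply_of]

end Hom

section Star1

variable {K : Type*} [Field K] {ι : Type*} [Fintype ι] [DecidableEq ι] {I : Type*} [Fintype I]
  [DecidableEq I]

/-- The polar form of two orbits with the same linear part is killed by identities. -/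
theorem star1 (t : Kˣ) (ht : Function.Injective (fun n : ℤ => t ^ n))
    (u : MonoidAlgebra K (FreeGroup I))
    (hu : ∀ (φ : FreeGroup I →* GG K) (p : WW K) (k : ZMod 2), orb u φ p k = 0)
    (lam : I → Qn ι × Kˣ) (m m' : I → MQ K ι) (p p' : MQ K ι) :
    pair u (fun w => beta K ι ((ahom lam m w)⁻¹ • p) ((ahom lam m' w)⁻¹ • p')) = 0 := by
  rw [beta_eq]
  simp only [LinearMap.sum_apply]
  rw [pair_sum]
  refine Finset.sum_eq_zero fun χ _ => ?_
  rw [pair_sum]
  refine Finset.sum_eq_zero fun k _ => ?_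
  have h1 := cprime t ht u hu χ 0 0 k (ahom lam (fun i => (m i, m' i))) (p, p')
  have h2 := congrArg (cf (c1 K ι)) h1
  rw [pair_map, map_zero] at h2
  refine Eq.trans ?_ h2
  congr 1
  funext w
  have h3 := ahom_map (AddMonoidHom.fst (MQ K ι) (MQ K ι)) (fun _ _ => rfl) lam
    (fun i => (m i, m' i)) w (p, p')
  have h4 := ahom_map (AddMonoidHom.snd (MQ K ι) (MQ K ι)) (fun _ _ => rfl) lam
    (fun i => (m i, m' i)) w (p, p')
  have h5 : (ahom lam m w)⁻¹ • p = ((ahom lam (fun i => (m i, m' i)) w)⁻¹ • (p, p')).1 :=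
    h3.symm
  have h6 : (ahom lam m' w)⁻¹ • p' = ((ahom lam (fun i => (m i, m' i)) w)⁻¹ • (p, p')).2 :=
    h4.symm
  rw [pb_apply, h5, h6]

/-- The quadratic functional. -/
noncomputable def Psi (u : MonoidAlgebra K (FreeGroup I)) (lam : I → Qn ι × Kˣ)
    (m : I → MQ K ι) (p : MQ K ι) : K :=
  pair u (fun w => QQ K ι ((ahom lam m w)⁻¹ • p))

variable [CharP K 2] [Nonempty ι]

theorem Psi_add (t : Kˣ) (ht : Function.Injective (fun n : ℤ => t ^ n))
    (u : MonoidAlgebra K (FreeGroup I))
    (hu : ∀ (φ : FreeGroup I →* GG K) (p : WW K) (k : ZMod 2), orb u φ p k = 0)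
    (lam : I → Qn ι × Kˣ) (m m' : I → MQ K ι) (p p' : MQ K ι) :
    Psi u lam (m + m') (p + p') = Psi u lam m p + Psi u lam m' p' := by
  unfold Psi
  have h1 : (fun w => QQ K ι ((ahom lam (m + m') w)⁻¹ • (p + p'))) =
      fun w => (QQ K ι ((ahom lam m w)⁻¹ • p) + QQ K ι ((ahom lam m' w)⁻¹ • p')) +
        beta K ι ((ahom lam m w)⁻¹ • p) ((ahom lam m' w)⁻¹ • p') := by
    funext w
    rw [ahom_add, QQ_add]
  rw [h1, pair_add, pair_add, star1 t ht u hu, add_zero]

theorem Psi_eq_zero (t : Kˣ) (ht : Function.Injective (fun n : ℤ => t ^ n))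
    (u : MonoidAlgebra K (FreeGroup I))
    (hu : ∀ (φ : FreeGroup I →* GG K) (p : WW K) (k : ZMod 2), orb u φ p k = 0)
    (lam : I → Qn ι × Kˣ)
    (hs : ∀ (i : I) (X : Qn ι) (c : K),
      Psi u lam (Pi.single i (Finsupp.single X c)) 0 = 0)
    (m : I → MQ K ι) (p : MQ K ι) : Psi u lam m p = 0 := by
  have hadd := Psi_add t ht u hu lam
  have h0 : ∀ p, Psi u lam 0 p = 0 := by
    intro p
    induction p using Finsupp.induction_linear with
    | zero =>
      have := hadd 0 0 0 0
      rw [add_zero, add_zero] at this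
      simpa using this
    | add x y hx hy =>
      have := hadd 0 0 x y
      rw [add_zero, hx, hy, add_zero] at this
      exact this
    | single X c =>
      unfold Psi
      have h1 : (fun w => QQ K ι ((ahom lam (0 : I → MQ K ι) w)⁻¹ •
          (Finsupp.single X c : MQ K ι))) = fun _ : FreeGroup I => (0 : K) := by
        funext w
        have h2 : ahom lam (0 : I → MQ K ι) w = ⟨FreeGroup.lift lam w, (0 : MQ K ι)⟩ :=
          ahom_zero_tr lam w
        rw [h2, Aff.smul_def, Aff.inv_tr, Aff.inv_lin]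
        rw [smul_zero, neg_zero, zero_add, MQ_smul_single, QQ_single]
      rw [h1, pair_zero]
  have h1 : ∀ (i : I) (x : MQ K ι), Psi u lam (Pi.single i x) 0 = 0 := by
    intro i x
    induction x using Finsupp.induction_linear with
    | zero => rw [Pi.single_zero]; exact h0 0
    | add x y hx hy =>
      have := hadd (Pi.single i x) (Pi.single i y) 0 0
      rw [← Pi.single_add, hx, hy, add_zero, add_zero] at this
      exact this
    | single X c => exact hs i X c
  have h2 : ∀ (s : Finset I), Psi u lam (∑ i ∈ s, Pi.single i (m i)) 0 = 0 := by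
    intro s
    induction s using Finset.induction_on with
    | empty => rw [Finset.sum_empty]; exact h0 0
    | insert a s ha ih =>
      have := hadd (Pi.single a (m a)) (∑ i ∈ s, Pi.single i (m i)) 0 0
      rw [h1, ih, add_zero, add_zero] at this
      rw [Finset.sum_insert ha]
      exact this
  have h3 := hadd 0 m p 0
  have h4 := h2 Finset.univ
  rw [Finset.univ_sum_single] at h4
  rw [zero_add, add_zero, h0, h4, add_zero] at h3
  exact h3

end Star1

end Pool.Agent.MP_d8349b_al
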