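import Pool.Agent.Work.MP_d8349b_al.Star2

/-!
MP_d8349b_al: reduction to finitely many variables.
-/

namespace Pool.Agent.MP_d8349b_al

/-- The retraction onto the first `d` generators. -/
def rd (d : ℕ) : FreeGroup ℕ →* FreeGroup (Fin d) :=
  FreeGroup.lift fun i => if h : i < d then FreeGroup.of ⟨i, h⟩ else 1

/-- The inclusion of the first `d` generators. -/
def jd (d : ℕ) : FreeGroup (Fin d) →* FreeGroup ℕ := FreeGroup.map Fin.val

theorem jd_rd (w : FreeGroup ℕ) : ∃ d₀ : ℕ, ∀ d ≥ d₀, jd d (rd d w) = w := by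
  induction w using FreeGroup.induction_on with
  | C1 => exact ⟨0, fun d _ => by rw [map_one, map_one]⟩
  | of i =>
    refine ⟨i + 1, fun d hd => ?_⟩
    unfold rd jd
    rw [FreeGroup.lift_apply_of, dif_pos (by omega), FreeGroup.map.of]
  | inv_of i ih =>
    obtain ⟨d₀, h⟩ := ih
    exact ⟨d₀, fun d hd => by rw [map_inv, map_inv, h d hd]⟩
  | mul x y hx hy =>
    obtain ⟨d₁, h1⟩ := hx
    obtain ⟨d₂, h2⟩ := hy
    refine ⟨max d₁ d₂, fun d hd => ?_⟩
    rw [map_mul, map_mul, h1 d (le_trans (le_max_left _ _) hd),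
      h2 d (le_trans (le_max_right _ _) hd)]

theorem jd_rd_finset (T : Finset (FreeGroup ℕ)) :
    ∃ d₀ : ℕ, ∀ d ≥ d₀, ∀ w ∈ T, jd d (rd d w) = w := by
  classical
  induction T using Finset.induction_on with
  | empty => exact ⟨0, fun d _ w hw => absurd hw (Finset.notMem_empty w)⟩
  | insert a s _ ih =>
    obtain ⟨d₁, h1⟩ := ih
    obtain ⟨d₂, h2⟩ := jd_rd a
    refine ⟨max d₁ d₂, fun d hd w hw => ?_⟩
    rcases Finset.mem_insert.1 hw with h | h
    · rw [h]
      exact h2 d (le_trans (le_max_right _ _) hd)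
    · exact h1 d (le_trans (le_max_left _ _) hd) w h

section

variable {K : Type*} [Field K] {Γ Γ' E : Type*} [AddCommGroup E] [Module K E]

theorem pair_mapDomain (r : Γ → Γ') (s : MonoidAlgebra K Γ) (F : Γ' → E) :
    pair (MonoidAlgebra.mapDomain r s) F = pair s (fun w => F (r w)) := by
  change (Finsupp.mapDomain r s.coeff).sum (fun w c => c • F w) = _
  rw [Finsupp.sum_mapDomain_index (by simp) (by intro a b c; rw [add_smul])]
  rfl

theorem pair_congr (s : MonoidAlgebra K Γ) (F F' : Γ → E)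
    (h : ∀ w ∈ s.coeff.support, F w = F' w) : pair s F = pair s F' := by
  unfold pair
  refine Finsupp.sum_congr fun w hw => ?_
  rw [h w hw]

theorem pair_single (w : Γ) (c : K) (F : Γ → E) :
    pair (MonoidAlgebra.single w c) F = c • F w := by
  change (Finsupp.single w c).sum (fun w c => c • F w) = _
  exact Finsupp.sum_single_index (by simp)

theorem pair_add_left (s s' : MonoidAlgebra K Γ) (F : Γ → E) :
    pair (s + s') F = pair s F + pair s' F := by
  unfold pair
  rw [MonoidAlgebra.coeff_add]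
  exact Finsupp.sum_add_index' (by simp) (by intro a b c; rw [add_smul])

end

/-- The main theorem for infinitely many variables. -/
theorem main_nat {K : Type*} [Field K] [CharP K 2] (t : Kˣ)
    (ht : Function.Injective (fun n : ℤ => t ^ n)) (s : MonoidAlgebra K (FreeGroup ℕ))
    (hs : ∀ (φ : FreeGroup ℕ →* GG K) (p : WW K) (k : ZMod 2), orb s φ p k = 0) (d : ℕ)
    (hd : ∀ w ∈ s.coeff.support, jd d (rd d w) = w)
    (φ : FreeGroup ℕ →* Aff (Qn (Fin (d + 1)) × Kˣ) (MQ K (Fin (d + 1))))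
    (p : MQ K (Fin (d + 1))) :
    pair s (fun w => QQ K (Fin (d + 1)) ((φ w)⁻¹ • p)) = 0 := by
  have h1 : ∀ (φ' : FreeGroup (Fin d) →* GG K) (p : WW K) (k : ZMod 2),
      orb (MonoidAlgebra.mapDomain (rd d) s) φ' p k = 0 := by
    intro φ' p k
    unfold orb
    rw [pair_mapDomain]
    exact hs (φ'.comp (rd d)) p k
  have h2 := main (ι := Fin (d + 1)) (by simp) t ht (MonoidAlgebra.mapDomain (rd d) s) h1
    (φ.comp (jd d)) p
  rw [pair_mapDomain] at h2
  rw [← h2]
  refine pair_congr _ _ _ fun w hw => ?_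
  rw [MonoidHom.comp_apply, hd w hw]

end Pool.Agent.MP_d8349b_al
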